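import Pool.Agent.Lib.MP_e3f158_nt.BSR.Reps
import Pool.Agent.Lib.MP_dd84fd_nt.HX.FaFin

/-!
# MP_e3f158_nt, type `(0,0)`: exceptions below the square root

Theorem H (`HX.fin_h`) for `η / 2` and `δ' = c η / 2`, with a smaller `δ = c η / 4`: the even
numbers `n ≤ X` which are multiples of a modulus `d` between `n ^ (1/2 + 2 δ)` and
`n ^ (1/2 + 2 δ')` number at most `2 (log X) ^ C X ^ (1/2 - 2 δ)`, and the number of
representations of type `(0,0)` differs from `g n` by at most one.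
-/

set_option autoImplicit false

namespace Pool.Agent.Lib.MP_e3f158_nt.BSR

open Finset Pool.MP_dd84fd_nt.En Pool.MP_dd84fd_nt.E2 Pool.Agent.Lib.MP_e3f158_nt

open Classical in
/-- multiples `n ≤ X` of `d` with `n ^ (1/2 + e) < d` -/
theorem mult_card (X d : ℕ) (e : ℝ) (he2 : e ≤ 1 / 2) (hX : 1 ≤ X) :
    (((Icc 1 X).filter (fun n : ℕ => d ∣ n ∧ (n : ℝ) ^ (1 / 2 + e) < d)).card : ℝ) ≤
      2 * (X : ℝ) ^ (1 / 2 - e) := by
  have hXR : (1 : ℝ) ≤ X := by exact_mod_cast hX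
  have h1 : ((Icc 1 X).filter (fun n : ℕ => d ∣ n ∧ (n : ℝ) ^ (1 / 2 + e) < d)).card ≤
      (range (⌊(X : ℝ) ^ (1 / 2 - e)⌋₊ + 1)).card := by
    refine card_le_card_of_injOn (fun n => n / d) ?_ ?_
    · intro n hn
      rw [Finset.mem_coe, mem_filter, mem_Icc] at hn
      obtain ⟨⟨hn1, hnX⟩, hd, hlt⟩ := hn
      rw [Finset.mem_coe, mem_range, Nat.lt_succ_iff]
      apply Nat.le_floor
      have hnR : (1 : ℝ) ≤ n := by exact_mod_cast hn1
      have hnp : (0 : ℝ) < n := by linarith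
      have hp : (0 : ℝ) < (n : ℝ) ^ (1 / 2 + e) := by positivity
      calc ((n / d : ℕ) : ℝ) ≤ (n : ℝ) / d := Nat.cast_div_le
        _ ≤ (n : ℝ) / (n : ℝ) ^ (1 / 2 + e) := div_le_div_of_nonneg_left hnp.le hp hlt.le
        _ = (n : ℝ) ^ (1 / 2 - e) := by
            rw [div_eq_iff hp.ne', ← Real.rpow_add hnp]
            rw [show (1 / 2 - e + (1 / 2 + e) : ℝ) = 1 by ring, Real.rpow_one]
        _ ≤ (X : ℝ) ^ (1 / 2 - e) :=
            Real.rpow_le_rpow hnp.le (by exact_mod_cast hnX) (by linarith)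
    · intro n hn n' hn' h
      rw [Finset.mem_coe, mem_filter] at hn hn'
      simp only at h
      rw [← Nat.mul_div_cancel' hn.2.1, ← Nat.mul_div_cancel' hn'.2.1, h]
  rw [card_range] at h1
  have h2 : (1 : ℝ) ≤ (X : ℝ) ^ (1 / 2 - e) := Real.one_le_rpow hXR (by linarith)
  have h3 : ((⌊(X : ℝ) ^ (1 / 2 - e)⌋₊ : ℕ) : ℝ) ≤ (X : ℝ) ^ (1 / 2 - e) :=
    Nat.floor_le (by linarith)
  have h4 : (((Icc 1 X).filter (fun n : ℕ => d ∣ n ∧ (n : ℝ) ^ (1 / 2 + e) < d)).card : ℝ) ≤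
      ((⌊(X : ℝ) ^ (1 / 2 - e)⌋₊ : ℕ) : ℝ) + 1 := by exact_mod_cast h1
  linarith

open Classical in
/-- the core statement, with a factor `1/2` to spare -/
theorem core : ∃ (C : ℕ) (c : ℝ), 0 < c ∧ c < 1 / 16 ∧ ∀ η : ℝ, 0 < η → η < 1 →
    ∀ K : ℕ, ∃ X0 : ℕ, ∀ X : ℕ, X0 ≤ X → ∃ D : Finset ℕ, (D.card : ℝ) ≤ (Real.log X) ^ C ∧
      (∀ d ∈ D, (Real.log X) ^ K ≤ (d : ℝ) ∧ (d : ℝ) ≤ (X : ℝ) ^ (1 / 2 + 2 * (c * η))) ∧
      ∀ P : ℕ → Prop,
        (∀ n, 1 ≤ n → n ≤ X → P n → Even n ∧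
          (∀ d ∈ D, d ∣ n → (n : ℝ) ^ (1 / 2 + 2 * (c * η)) < d) ∧ ¬ Good η n) →
        (((Icc 1 X).filter P).card : ℝ) ≤ 1 / 2 * (X : ℝ) ^ (1 / 2 - c * η) := by
  obtain ⟨C, c, hc, hc4, h⟩ := Pool.MP_dd84fd_nt.HX.fin_h
  refine ⟨C, c / 4, by positivity, by linarith, fun η hη hη1 K => ?_⟩
  obtain ⟨X1, hX1⟩ := h (η / 2) (by positivity) (by linarith) K
  obtain ⟨N, hN⟩ := main_large η hη
  have hcη : 0 < c * η := by positivity
  have hcη2 : c * η < 1 / 4 := by nlinarith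
  obtain ⟨δ, hδ⟩ : ∃ δ : ℝ, δ = c / 4 * η := ⟨_, rfl⟩
  have hδ0 : 0 < δ := by rw [hδ]; positivity
  have hδ1 : δ < 1 / 16 := by rw [hδ]; linarith
  have hδ2 : c * (η / 2) = 2 * δ := by rw [hδ]; ring
  rw [← hδ]
  rw [hδ2] at hX1
  obtain ⟨X2, hX2⟩ := MP_log_pow (2 * (3 + N)) C (ε := δ) hδ0
  obtain ⟨X3, hX3⟩ := MP_log_large 1
  refine ⟨max (max X1 X2) (max X3 1), fun X hX => ?_⟩
  have k1 : X1 ≤ X := (le_max_left _ _).trans ((le_max_left _ _).trans hX)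
  have k2 : X2 ≤ X := (le_max_right _ _).trans ((le_max_left _ _).trans hX)
  have k3 : X3 ≤ X := (le_max_left _ _).trans ((le_max_right _ _).trans hX)
  have k4 : 1 ≤ X := (le_max_right _ _).trans ((le_max_right _ _).trans hX)
  obtain ⟨D0, g1, g2, g3⟩ := hX1 X k1
  have g4 := hX2 X k2
  have g5 := hX3 X k3
  have hXR : (1 : ℝ) ≤ X := by exact_mod_cast k4
  have hXp : (0 : ℝ) < X := by linarith
  obtain ⟨D, hD⟩ : ∃ D : Finset ℕ, D = D0.filter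
    (fun d : ℕ => (d : ℝ) ≤ (X : ℝ) ^ (1 / 2 + 2 * δ)) := ⟨_, rfl⟩
  have hDc : (D.card : ℝ) ≤ D0.card := by
    rw [hD]
    exact_mod_cast card_filter_le _ _
  refine ⟨D, hDc.trans g1, fun d hd => ?_, fun P hP => ?_⟩
  · rw [hD, mem_filter] at hd
    exact ⟨(g2 d hd.1).1, hd.2⟩
  · obtain ⟨Q, hQ⟩ : ∃ Q : ℕ → Prop, Q = fun n => Even n ∧
      (∀ d ∈ D0, d ∣ n → (n : ℝ) ^ (1 / 2 + 2 * (2 * δ)) < d) ∧
      η / 2 * (SS n * JJ n) < |(g n : ℝ) - SS n * JJ n| := ⟨_, rfl⟩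
    have hsub : (Icc 1 X).filter P ⊆ ((Icc 1 X).filter Q ∪
        D0.biUnion (fun d => (Icc 1 X).filter
          (fun n : ℕ => d ∣ n ∧ (n : ℝ) ^ (1 / 2 + 2 * δ) < d))) ∪ range N := by
      intro n hn
      rw [mem_filter] at hn
      obtain ⟨hn1, hn2⟩ := hn
      have hn1' := mem_Icc.1 hn1
      obtain ⟨p1, p2, p3⟩ := hP n hn1'.1 hn1'.2 hn2
      rw [mem_union, mem_union, mem_range]
      by_cases hnN : n < N
      · right
        exact hnN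
      left
      have hbad : η / 2 * (SS n * JJ n) < |(g n : ℝ) - SS n * JJ n| := by
        by_contra hcon
        push Not at hcon
        exact p3 (good_of η hη hη1 n (hN n (by omega)) hcon)
      by_cases hdiv : ∀ d ∈ D0, d ∣ n → (n : ℝ) ^ (1 / 2 + 2 * (2 * δ)) < d
      · left
        rw [mem_filter, hQ]
        exact ⟨hn1, p1, hdiv, hbad⟩
      · right
        push Not at hdiv
        obtain ⟨d, hd, hdn, -⟩ := hdiv
        rw [mem_biUnion]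
        refine ⟨d, hd, ?_⟩
        rw [mem_filter]
        refine ⟨hn1, hdn, ?_⟩
        by_cases hdD : (d : ℝ) ≤ (X : ℝ) ^ (1 / 2 + 2 * δ)
        · exact p2 d (by rw [hD, mem_filter]; exact ⟨hd, hdD⟩) hdn
        · push Not at hdD
          refine lt_of_le_of_lt ?_ hdD
          exact Real.rpow_le_rpow (by positivity) (by exact_mod_cast hn1'.2) (by linarith)
    have h1 : (((Icc 1 X).filter P).card : ℝ) ≤ (((Icc 1 X).filter Q).card : ℝ) +
        ∑ d ∈ D0, (((Icc 1 X).filter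
          (fun n : ℕ => d ∣ n ∧ (n : ℝ) ^ (1 / 2 + 2 * δ) < d)).card : ℝ) + N := by
      have h2 := (card_le_card hsub).trans ((card_union_le _ _).trans
        (Nat.add_le_add_right ((card_union_le _ _).trans
          (Nat.add_le_add_left card_biUnion_le _)) _))
      rw [card_range] at h2
      exact_mod_cast h2
    have h2 : (((Icc 1 X).filter Q).card : ℝ) ≤ (X : ℝ) ^ (1 / 2 - 2 * δ) := by
      refine g3 Q (Classical.decPred Q) ?_ |>.trans' ?_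
      · intro n hn
        rw [hQ] at hn
        exact hn
      · apply le_of_eq
        congr!
    have h3 : ∑ d ∈ D0, (((Icc 1 X).filter
          (fun n : ℕ => d ∣ n ∧ (n : ℝ) ^ (1 / 2 + 2 * δ) < d)).card : ℝ) ≤
        (Real.log X) ^ C * (2 * (X : ℝ) ^ (1 / 2 - 2 * δ)) := by
      have h4 := sum_le_card_nsmul D0 _ _
        (fun d _ => mult_card X d (2 * δ) (by linarith) k4)
      rw [nsmul_eq_mul] at h4
      refine h4.trans ?_
      exact mul_le_mul_of_nonneg_right g1 (by positivity)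
    have h4 : (1 : ℝ) ≤ (X : ℝ) ^ (1 / 2 - 2 * δ) := Real.one_le_rpow hXR (by linarith)
    have h5 : (1 : ℝ) ≤ (Real.log X) ^ C := one_le_pow₀ g5
    have h6 : (X : ℝ) ^ (1 / 2 - δ) = (X : ℝ) ^ δ * (X : ℝ) ^ (1 / 2 - 2 * δ) := by
      rw [← Real.rpow_add hXp]
      congr 1
      ring
    have h7 : (0 : ℝ) ≤ N := Nat.cast_nonneg N
    rw [h6]
    have h8 := mul_le_mul_of_nonneg_right g4 (by linarith : (0 : ℝ) ≤ (X : ℝ) ^ (1 / 2 - 2 * δ))
    obtain ⟨u, hu⟩ : ∃ u : ℝ, u = (X : ℝ) ^ (1 / 2 - 2 * δ) := ⟨_, rfl⟩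
    obtain ⟨v, hv⟩ : ∃ v : ℝ, v = (Real.log X) ^ C := ⟨_, rfl⟩
    rw [← hu] at h2 h3 h4 h8 ⊢
    rw [← hv] at h3 h5 h8
    have h9 : u ≤ v * u := by nlinarith
    have h10 : (N : ℝ) ≤ N * (v * u) := by nlinarith
    linarith [h1, h2, h3, h8, h9, h10]

end Pool.Agent.Lib.MP_e3f158_nt.BSR
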