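import Pool.Agent.Lib.MP_e3f158_nt.BSR.PortJ

/-!
# MP_e3f158_nt, type `(0,0)`: transfer of Theorems J and K, closed form

`port_abs`: from at most `X ^ (θ + ε / 2)` exceptions to `¬ Bd n` to at most `X ^ (θ + ε)` exceptions
to `Nr n`, if `¬ Bd n → Nr n` for all large `n`.
-/

set_option autoImplicit false

namespace Pool.Agent.Lib.MP_e3f158_nt.BSR

open Finset Pool.MP_dd84fd_nt.En Pool.MP_dd84fd_nt.E2 Pool.Agent.Lib.MP_e3f158_nt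

theorem port_abs (θ ε : ℝ) (hθ : 0 < θ) (hε : 0 < ε) (C K N : ℕ) (Bd Nr : ℕ → Prop)
    (h : ∃ X0 : ℕ, ∀ X : ℕ, X0 ≤ X → ∃ D : Finset ℕ, (D.card : ℝ) ≤ (Real.log X) ^ C ∧
      (∀ d ∈ D, (Real.log X) ^ K ≤ (d : ℝ) ∧ (d : ℝ) ≤ (X : ℝ) ^ (1 - θ)) ∧
      ∀ P : ℕ → Prop, ∀ _ : DecidablePred P,
        (∀ n, P n → Even n ∧ (∀ d ∈ D, (d : ℝ) ≤ (n : ℝ) ^ (1 - θ) → ¬ d ∣ n) ∧ Bd n) →
        (((Icc 1 X).filter P).card : ℝ) ≤ (X : ℝ) ^ (θ + ε / 2))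
    (hN : ∀ n : ℕ, N ≤ n → ¬ Bd n → Nr n) :
    ∃ X0 : ℕ, ∀ X : ℕ, X0 ≤ X → ∃ D : Finset ℕ, (D.card : ℝ) ≤ (Real.log X) ^ C ∧
      (∀ d ∈ D, (Real.log X) ^ K ≤ (d : ℝ) ∧ (d : ℝ) ≤ (X : ℝ) ^ (1 - θ)) ∧
      (Set.ncard {n : ℕ | 1 ≤ n ∧ n ≤ X ∧ Even n ∧
          (∀ d ∈ D, (d : ℝ) ≤ (n : ℝ) ^ (1 - θ) → ¬ d ∣ n) ∧ ¬ Nr n} : ℝ) ≤
        (X : ℝ) ^ (θ + ε) := by
  classical
  obtain ⟨X1, hX1⟩ := h
  obtain ⟨X2, hX2⟩ := MP_log_pow (N + 1) 0 (ε := ε / 2) (by linarith)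
  refine ⟨max (max X1 X2) 1, fun X hX => ?_⟩
  have k1 : X1 ≤ X := (le_max_left _ _).trans ((le_max_left _ _).trans hX)
  have k2 : X2 ≤ X := (le_max_right _ _).trans ((le_max_left _ _).trans hX)
  have k3 : 1 ≤ X := (le_max_right _ _).trans hX
  obtain ⟨D, g1, g2, g3⟩ := hX1 X k1
  have g4 := hX2 X k2
  rw [pow_zero, mul_one] at g4
  have hXR : (1 : ℝ) ≤ X := by exact_mod_cast k3
  have hXp : (0 : ℝ) < X := by linarith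
  refine ⟨D, g1, g2, ?_⟩
  have g5 := g3 (fun n : ℕ => Even n ∧ (∀ d ∈ D, (d : ℝ) ≤ (n : ℝ) ^ (1 - θ) → ¬ d ∣ n) ∧ Bd n)
    (fun n => Classical.propDecidable _) (fun n hn => hn)
  obtain ⟨T, hT⟩ : ∃ T : Finset ℕ, T = (Icc 1 X).filter (fun n : ℕ => Even n ∧
      (∀ d ∈ D, (d : ℝ) ≤ (n : ℝ) ^ (1 - θ) → ¬ d ∣ n) ∧ Bd n) := ⟨_, rfl⟩
  have g5' : (T.card : ℝ) ≤ (X : ℝ) ^ (θ + ε / 2) := by
    rw [hT]
    convert g5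
  have g6 : {n : ℕ | 1 ≤ n ∧ n ≤ X ∧ Even n ∧
          (∀ d ∈ D, (d : ℝ) ≤ (n : ℝ) ^ (1 - θ) → ¬ d ∣ n) ∧ ¬ Nr n} ⊆
      ((T ∪ range N : Finset ℕ) : Set ℕ) := by
    rintro n ⟨a1, a2, a3, a4, a5⟩
    rw [Finset.mem_coe, mem_union, mem_range]
    by_cases hnN : N ≤ n
    · left
      rw [hT, mem_filter, mem_Icc]
      refine ⟨⟨a1, a2⟩, a3, a4, ?_⟩
      by_contra hcon
      exact a5 (hN n hnN hcon)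
    · right
      omega
  have g7 := Set.ncard_le_ncard g6 (Finset.finite_toSet _)
  rw [Set.ncard_coe_finset] at g7
  have g8 := g7.trans (card_union_le _ _)
  rw [card_range] at g8
  have g9 : (Set.ncard {n : ℕ | 1 ≤ n ∧ n ≤ X ∧ Even n ∧
          (∀ d ∈ D, (d : ℝ) ≤ (n : ℝ) ^ (1 - θ) → ¬ d ∣ n) ∧ ¬ Nr n} : ℝ) ≤ (T.card : ℝ) + N := by
    exact_mod_cast g8
  have g11 : (X : ℝ) ^ (θ + ε) = (X : ℝ) ^ (ε / 2) * (X : ℝ) ^ (θ + ε / 2) := by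
    rw [← Real.rpow_add hXp]
    congr 1
    ring
  have g12 : (1 : ℝ) ≤ (X : ℝ) ^ (θ + ε / 2) := Real.one_le_rpow hXR (by linarith)
  obtain ⟨u, hu⟩ : ∃ u : ℝ, u = (X : ℝ) ^ (θ + ε / 2) := ⟨_, rfl⟩
  obtain ⟨v, hv⟩ : ∃ v : ℝ, v = (X : ℝ) ^ (ε / 2) := ⟨_, rfl⟩
  rw [g11, ← hu, ← hv]
  rw [← hu] at g5' g12
  rw [← hv] at g4
  have hN0 : (0 : ℝ) ≤ N := Nat.cast_nonneg N
  nlinarith

/-- Theorem K for the representations of type `(0,0)` -/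
def NearK2 (θ : ℝ) (n : ℕ) : Prop :=
  HasRep 0 0 n ∧ (1 - 5 * (1 - 3 * θ) ^ 2) * (SS n * JJ n) - 1 ≤ (reps 0 0 n : ℝ) ∧
    (reps 0 0 n : ℝ) ≤ (1 + 4 * (1 - 3 * θ)) * (SS n * JJ n)

theorem nearK2_of : ∃ N : ℕ, ∀ n : ℕ, N ≤ n → ∀ θ : ℝ, 1 / 4 ≤ θ → θ < 1 / 3 →
    ¬ ((g n : ℝ) < (1 - 5 * (1 - 3 * θ) ^ 2) * (SS n * JJ n) ∨
      (1 + 4 * (1 - 3 * θ)) * (SS n * JJ n) < g n) → NearK2 θ n := by
  obtain ⟨N, hN⟩ := main_large (11 / 16) (by norm_num)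
  refine ⟨N, fun n hn θ h1 h2 hb => ?_⟩
  push Not at hb
  obtain ⟨b1, b2⟩ := hb
  have k1 : (reps 0 0 n : ℝ) ≤ g n := by exact_mod_cast reps_le n
  have k2 : (g n : ℝ) ≤ reps 0 0 n + 1 := by exact_mod_cast le_reps n
  have hm := hN n hn
  refine ⟨hasRep_of_reps fun h0 => ?_, by linarith, by linarith⟩
  rw [h0, Nat.cast_zero] at k2
  have hx : (1 - 3 * θ) ^ 2 ≤ (1 / 4) ^ 2 := pow_le_pow_left₀ (by linarith) (by linarith) 2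
  have hm0 : 0 < SS n * JJ n := by
    by_contra hneg
    push Not at hneg
    linarith
  have h3 : 11 / 16 * (SS n * JJ n) ≤ (1 - 5 * (1 - 3 * θ) ^ 2) * (SS n * JJ n) :=
    mul_le_mul_of_nonneg_right (by linarith) hm0.le
  linarith

end Pool.Agent.Lib.MP_e3f158_nt.BSR
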