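import Pool.Agent.Lib.MP_e3f158_nt.BSR.PortM
import Pool.Agent.Lib.MP_dd84fd_nt.EM.FinE

/-!
# MP_e3f158_nt, type `(0,0)`: every modulus up to `X^(6/7 - ε)`

`NearM c C n`: `n` has a representation of type `(0,0)` and `c S J - 1 ≤ reps 0 0 n ≤ C S J`.
`em_port`: `EM.em_fin` for `¬ NearM c C n` in place of `BadM c C n`.
-/

set_option autoImplicit false

namespace Pool.Agent.Lib.MP_e3f158_nt.BSR

open Finset Pool.MP_dd84fd_nt.En Pool.MP_dd84fd_nt.E2 Pool.Agent.Lib.MP_e3f158_nt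
open Pool.MP_dd84fd_nt.MX (MajSet BadM)
open Pool.MP_dd84fd_nt.EM

/-- the negation of `NearM` -/
def BadE (c C : ℝ) (n : ℕ) : Prop := ¬ NearM c C n

theorem nearE_of (c C : ℝ) (hc : 0 < c) : ∃ N : ℕ, ∀ n : ℕ, N ≤ n →
    ¬ BadM c C n → NearM c C n := by
  obtain ⟨N, hN⟩ := main_large c hc
  refine ⟨N, fun n hn hb => ?_⟩
  unfold BadM at hb
  push Not at hb
  obtain ⟨b1, b2⟩ := hb
  have k1 : (reps 0 0 n : ℝ) ≤ g n := by exact_mod_cast reps_le n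
  have k2 : (g n : ℝ) ≤ reps 0 0 n + 1 := by exact_mod_cast le_reps n
  have hm := hN n hn
  refine ⟨hasRep_of_reps fun h0 => ?_, by linarith, by linarith⟩
  rw [h0, Nat.cast_zero] at k2
  linarith

open Classical in
theorem em_port (hS : StrE) (lo hi c C : ℝ) (Ad : ℝ → ℝ → ℝ → Prop)
    (bm : ℝ → ℝ → ℝ → ℕ → ℕ → Finset ℕ → ℝ)
    (hM : MajSet lo hi (fun _ => c) (fun _ => C) Ad bm) (hc : 0 < c)
    (hAE : ∀ th e τ : ℝ, Ad th e τ → AdE th e τ) (h0 : 1 / 8 ≤ lo) (hlh : lo < hi)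
    (ε₀ : ℝ) (hε₀ : 0 < ε₀) (A : ℕ) : ∃ B : ℕ, ∀ K : ℕ,
    ∃ X0 : ℕ, ∀ X : ℕ, X0 ≤ X → ∀ (N : ℕ) [NeZero N], N = 3 * X →
    ∀ q : ℕ, 1 ≤ q → (q : ℝ) ≤ (X : ℝ) ^ (1 - lo - ε₀) → ∀ a : ℕ,
    (Nat.gcd a q : ℝ) ≤ Real.log X ^ K → ∀ ξ : ℕ → ℝ, (∀ n, 0 ≤ ξ n) →
    (∀ n, ξ n ≠ 0 → n ≡ a [MOD q]) → ∑ n ∈ Icc 1 X, ξ n ≤ 1 →
    ((Pool.MP_dd84fd_nt.LS.spec N X ξ (1 / (Real.log X) ^ B)).card : ℝ) ≤
      q * (Real.log X) ^ K →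
    ∑ n ∈ (Icc 1 X).filter (fun n => Even n ∧ BadE c C n), ξ n ≤ 1 / Real.log X ^ A := by
  obtain ⟨N0, hN0⟩ := nearE_of c C hc
  refine em_fin_gen (BadE c C) lo hi h0 hlh ?_ ε₀ hε₀ A
  intro th hth1 hth2 A' K
  obtain ⟨Y0, hY0⟩ := em_blk hS lo hi c C Ad bm hM hAE th hth1 hth2 A' K
  obtain ⟨Y1, hY1⟩ := Filter.eventually_atTop.mp
    ((Real.tendsto_log_atTop.comp tendsto_natCast_atTop_atTop).eventually_ge_atTop (2 : ℝ))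
  refine ⟨max (max Y0 Y1) (2 * N0), ?_⟩
  intro Y hY X N _ hYX hXN hYN ξ hξ hsum δ hδ q _ hq a ha P hP hPB
  have hYY0 : Y0 ≤ Y := (le_max_left _ _).trans ((le_max_left _ _).trans hY)
  have hYY1 : Y1 ≤ Y := (le_max_right _ _).trans ((le_max_left _ _).trans hY)
  have hYN0 : 2 * N0 ≤ Y := (le_max_right _ _).trans hY
  have hl : (2 : ℝ) ≤ Real.log Y := hY1 Y hYY1
  have hPB' : ∀ n, P n → Even n ∧ BadM c C n ∧ Y < 2 * n ∧ (n : ZMod q) = a := by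
    intro n hn
    obtain ⟨p1, p2, p3, p4⟩ := hPB n hn
    refine ⟨p1, ?_, p3, p4⟩
    by_contra hcon
    exact p2 (hN0 n (by omega) hcon)
  refine (hY0 Y hYY0 X N hYX hXN hYN ξ hξ hsum δ hδ q hq a ha P hP hPB').trans ?_
  refine mul_le_mul_of_nonneg_right ?_ (by positivity)
  rw [mul_div_assoc']
  refine div_le_div_of_nonneg_right ?_ (by positivity)
  have h1 : Real.log Y ^ 11 = Real.log Y * Real.log Y ^ 10 := by ring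
  rw [h1]
  exact mul_le_mul_of_nonneg_right hl (by positivity)

end Pool.Agent.Lib.MP_e3f158_nt.BSR
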