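import Pool.Agent.Lib.MP_e3f158_nt.BSR.PortEM
import Pool.Agent.Lib.MP_dd84fd_nt.EM.Main

/-!
# MP_e3f158_nt, type `(0,0)`: every modulus up to `X^(6/7 - ε)`, from `EM.em_67`'s inputs
-/

set_option autoImplicit false

namespace Pool.Agent.Lib.MP_e3f158_nt.BSR

open Finset Pool.MP_dd84fd_nt.En Pool.MP_dd84fd_nt.E2 Pool.Agent.Lib.MP_e3f158_nt
open Pool.MP_dd84fd_nt.EM

open Classical in
theorem em_port_67 (ε₀ : ℝ) (hε₀ : 0 < ε₀) (A : ℕ) : ∃ B : ℕ, ∀ K : ℕ,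
    ∃ X0 : ℕ, ∀ X : ℕ, X0 ≤ X → ∀ (N : ℕ) [NeZero N], N = 3 * X →
    ∀ q : ℕ, 1 ≤ q → (q : ℝ) ≤ (X : ℝ) ^ (6 / 7 - ε₀) → ∀ a : ℕ,
    (Nat.gcd a q : ℝ) ≤ Real.log X ^ K → ∀ ξ : ℕ → ℝ, (∀ n, 0 ≤ ξ n) →
    (∀ n, ξ n ≠ 0 → n ≡ a [MOD q]) → ∑ n ∈ Icc 1 X, ξ n ≤ 1 →
    ((Pool.MP_dd84fd_nt.LS.spec N X ξ (1 / (Real.log X) ^ B)).card : ℝ) ≤
      q * (Real.log X) ^ K →
    ∑ n ∈ (Icc 1 X).filter (fun n => Even n ∧ BadE (1 / 40) 2 n), ξ n ≤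
      1 / Real.log X ^ A := by
  obtain ⟨hi, h1, h2, hM⟩ := Pool.MP_dd84fd_nt.MX.majSet (fun _ _ _ h => h.adm) (1 / 40) 2
    (1 + 9869 / 10000) (by norm_num) (by norm_num) (by norm_num) Pool.MP_dd84fd_nt.MX.num1
  have h := em_port strE (1 / 7) hi (1 / 40) 2 Pool.MP_dd84fd_nt.MX.AdmM
    Pool.MP_dd84fd_nt.MX.bmT hM (by norm_num) (fun _ _ _ h => adE_of h)
    (by norm_num) h1 ε₀ hε₀ A
  have he : (1 : ℝ) - 1 / 7 - ε₀ = 6 / 7 - ε₀ := by ring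
  rw [he] at h
  exact h

end Pool.Agent.Lib.MP_e3f158_nt.BSR
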