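import Pool.Agent.Lib.MP_e3f158_nt.BSR.Reps

/-!
# MP_e3f158_nt, type `(0,0)`: from the count `g n` to representations of type `(0,0)`

`FinI κ` is the form of Theorem I (exceptions at most `X ^ θ`, `2/5 < θ < 1/2`, error
`κ (1 - 2θ)² S(n) J(n)`). `portI`: the same for the number of representations of type `(0,0)`,
with `κ' > κ`: use a slightly smaller `θ`.
-/

set_option autoImplicit false

namespace Pool.Agent.Lib.MP_e3f158_nt.BSR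

open Finset Pool.MP_dd84fd_nt.En Pool.MP_dd84fd_nt.E2 Pool.Agent.Lib.MP_e3f158_nt

/-- the statement for the count `g n` -/
def FinI (κ : ℝ) : Prop := ∃ C : ℕ, ∀ th : ℝ, 2 / 5 < th → th < 1 / 2 →
    ∀ ε : ℝ, 0 < ε → ∀ K : ℕ, ∃ X0 : ℕ, ∀ X : ℕ, X0 ≤ X → ∃ D : Finset ℕ,
      (D.card : ℝ) ≤ (Real.log X) ^ C ∧
      (∀ d ∈ D, (Real.log X) ^ K ≤ (d : ℝ) ∧ (d : ℝ) ≤ (X : ℝ) ^ (1 - th + ε)) ∧
      ∀ P : ℕ → Prop, ∀ _ : DecidablePred P,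
        (∀ n, P n → Even n ∧ (∀ d ∈ D, d ∣ n → (n : ℝ) ^ (1 - th + ε) < d) ∧
          κ * (1 - 2 * th) ^ 2 * (SS n * JJ n) < |(g n : ℝ) - SS n * JJ n|) →
        (((Icc 1 X).filter P).card : ℝ) ≤ (X : ℝ) ^ th

theorem near_of (κ κ' θ θ' : ℝ) (hκ : 0 < κ) (hκ' : κ < κ') (hθ : θ < 1 / 2)
    (hs : θ - θ' ≤ (κ' - κ) / (8 * κ) * (1 - 2 * θ)) (hs2 : θ - θ' ≤ (1 - 2 * θ) / 2)
    (hs3 : 0 ≤ θ - θ') (n : ℕ)
    (h2 : 2 ≤ (κ' - κ) / 4 * (1 - 2 * θ) ^ 2 * (SS n * JJ n))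
    (hg : |(g n : ℝ) - SS n * JJ n| ≤ κ * (1 - 2 * θ') ^ 2 * (SS n * JJ n)) :
    |(reps 0 0 n : ℝ) - SS n * JJ n| ≤ κ' * (1 - 2 * θ) ^ 2 * (SS n * JJ n) := by
  have k1 : (reps 0 0 n : ℝ) ≤ g n := by exact_mod_cast reps_le n
  have k2 : (g n : ℝ) ≤ reps 0 0 n + 1 := by exact_mod_cast le_reps n
  obtain ⟨m, hm⟩ : ∃ m : ℝ, m = SS n * JJ n := ⟨_, rfl⟩
  rw [← hm] at h2 hg ⊢
  obtain ⟨y, hy⟩ : ∃ y : ℝ, y = 1 - 2 * θ := ⟨_, rfl⟩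
  obtain ⟨s, hsd⟩ : ∃ s : ℝ, s = θ - θ' := ⟨_, rfl⟩
  have hy0 : 0 < y := by linarith
  have hy' : 1 - 2 * θ' = y + 2 * s := by rw [hy, hsd]; ring
  rw [hy'] at hg
  rw [← hy] at h2 hs hs2 ⊢
  rw [← hsd] at hs hs2 hs3
  have hm0 : 0 < m := by
    by_contra hneg
    push Not at hneg
    have : 0 ≤ (κ' - κ) / 4 * y ^ 2 := by
      have : 0 < κ' - κ := by linarith
      positivity
    nlinarith
  have h3 : κ * (y + 2 * s) ^ 2 ≤ (κ + 3 / 4 * (κ' - κ)) * y ^ 2 := by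
    have e1 : κ * (8 * s) ≤ (κ' - κ) * y := by
      have e2 := mul_le_mul_of_nonneg_left hs (by positivity : 0 ≤ 8 * κ)
      have e3 : 8 * κ * ((κ' - κ) / (8 * κ) * y) = (κ' - κ) * y := by
        field_simp
      linarith
    have e4 : κ * (y + 2 * s) ^ 2 = κ * y ^ 2 + κ * (4 * s) * (y + s) := by ring
    have e5 : κ * (4 * s) * (y + s) ≤ (κ' - κ) / 2 * y * (3 / 2 * y) := by
      have e6 : 0 ≤ κ * (4 * s) := by positivity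
      have e7 : κ * (4 * s) ≤ (κ' - κ) / 2 * y := by linarith
      have e8 : y + s ≤ 3 / 2 * y := by linarith
      exact mul_le_mul e7 e8 (by positivity) (by linarith)
    rw [e4]
    nlinarith
  have h4 := mul_le_mul_of_nonneg_right h3 hm0.le
  obtain ⟨h10, h11⟩ := abs_le.1 hg
  rw [abs_le]
  constructor <;> nlinarith

/-- an `n` whose number of representations is close to the main term has one -/
theorem hasRep_of_near (κ' θ : ℝ) (hθ : 2 / 5 < θ) (hθ2 : θ < 1 / 2) (h25 : κ' < 25)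
    (n : ℕ) (hn : 0 < SS n * JJ n)
    (h : |(reps 0 0 n : ℝ) - SS n * JJ n| ≤ κ' * (1 - 2 * θ) ^ 2 * (SS n * JJ n)) :
    HasRep 0 0 n := by
  refine hasRep_of_reps fun h0 => ?_
  rw [h0, Nat.cast_zero] at h
  have h1 := (abs_le.1 h).1
  have h2 : κ' * (1 - 2 * θ) ^ 2 < 1 := by
    have h3 : (1 - 2 * θ) ^ 2 ≤ (1 / 5) ^ 2 := pow_le_pow_left₀ (by linarith) (by linarith) 2
    have h4 : 0 < (1 - 2 * θ) ^ 2 := pow_pos (by linarith) 2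
    nlinarith
  nlinarith

/-- `n` has a representation of type `(0,0)`, and their number differs from `S(n) J(n)` by at most
`κ (1 - 2 θ)² S(n) J(n)` -/
def Near (κ θ : ℝ) (n : ℕ) : Prop :=
  HasRep 0 0 n ∧ |(reps 0 0 n : ℝ) - SS n * JJ n| ≤ κ * (1 - 2 * θ) ^ 2 * (SS n * JJ n)

/-- the statement for representations of type `(0,0)` -/
theorem portI (κ κ' : ℝ) (hκ : 0 < κ) (hκ' : κ < κ') (h25 : κ' < 25) (h : FinI κ) :
    ∃ C : ℕ, ∀ θ : ℝ, 2 / 5 < θ → θ < 1 / 2 → ∀ ε : ℝ, 0 < ε → ∀ K : ℕ,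
    ∃ X0 : ℕ, ∀ X : ℕ, X0 ≤ X → ∃ D : Finset ℕ, (D.card : ℝ) ≤ (Real.log X) ^ C ∧
      (∀ d ∈ D, (Real.log X) ^ K ≤ (d : ℝ) ∧ (d : ℝ) ≤ (X : ℝ) ^ (1 - θ + ε)) ∧
      ∀ E : Set ℕ, (∀ n ∈ E, 1 ≤ n ∧ n ≤ X ∧ Even n ∧
          (∀ d ∈ D, d ∣ n → (n : ℝ) ^ (1 - θ + ε) < d) ∧ ¬ Near κ' θ n) →
        (E.ncard : ℝ) ≤ (X : ℝ) ^ θ := by
  classical
  obtain ⟨C, hC⟩ := h
  refine ⟨C, fun θ hθ hθ2 ε hε K => ?_⟩
  have hκd : 0 < κ' - κ := by linarith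
  have hy : 0 < 1 - 2 * θ := by linarith
  obtain ⟨s, hs0, hs1, hs2, hs3, hs4⟩ : ∃ s : ℝ, 0 < s ∧ s < ε ∧ 2 / 5 < θ - s ∧
      s ≤ (κ' - κ) / (8 * κ) * (1 - 2 * θ) ∧ s ≤ (1 - 2 * θ) / 2 := by
    obtain ⟨t, ht⟩ : ∃ t : ℝ, t = (κ' - κ) / (8 * κ) * (1 - 2 * θ) := ⟨_, rfl⟩
    have ht0 : 0 < t := by rw [ht]; positivity
    rw [← ht]
    refine ⟨min (min (ε / 2) ((θ - 2 / 5) / 2)) (min t ((1 - 2 * θ) / 2)), ?_, ?_, ?_, ?_, ?_⟩
    · exact lt_min (lt_min (by positivity) (by linarith)) (lt_min ht0 (by linarith))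
    · exact lt_of_le_of_lt ((min_le_left _ _).trans (min_le_left _ _)) (by linarith)
    · have := (min_le_left (min (ε / 2) ((θ - 2 / 5) / 2)) (min t ((1 - 2 * θ) / 2))).trans
        (min_le_right _ _)
      linarith
    · exact (min_le_right _ _).trans (min_le_left _ _)
    · exact (min_le_right _ _).trans (min_le_right _ _)
  have hη : 0 < (κ' - κ) / 4 * (1 - 2 * θ) ^ 2 := by positivity
  obtain ⟨N, hN⟩ := main_large ((κ' - κ) / 4 * (1 - 2 * θ) ^ 2) hη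
  obtain ⟨X1, hX1⟩ := hC (θ - s) hs2 (by linarith) (ε - s) (by linarith) K
  obtain ⟨X2, hX2⟩ := MP_log_pow (N + 1) 0 (ε := s) hs0
  refine ⟨max (max X1 X2) 1, fun X hX => ?_⟩
  have k1 : X1 ≤ X := (le_max_left _ _).trans ((le_max_left _ _).trans hX)
  have k2 : X2 ≤ X := (le_max_right _ _).trans ((le_max_left _ _).trans hX)
  have k3 : 1 ≤ X := (le_max_right _ _).trans hX
  obtain ⟨D, g1, g2, g3⟩ := hX1 X k1
  have g4 := hX2 X k2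
  rw [pow_zero, mul_one] at g4
  have hexp : 1 - (θ - s) + (ε - s) = 1 - θ + ε := by ring
  rw [hexp] at g2 g3
  have hXR : (1 : ℝ) ≤ X := by exact_mod_cast k3
  have hXp : (0 : ℝ) < X := by linarith
  refine ⟨D, g1, g2, fun E hE => ?_⟩
  have g5 := g3 (fun n => n ∈ E ∧ N ≤ n) (Classical.decPred _) (by
    rintro n ⟨hn, hnN⟩
    obtain ⟨e1, e2, e3, e4, e5⟩ := hE n hn
    refine ⟨e3, e4, ?_⟩
    by_contra hcon
    push Not at hcon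
    have hm := hN n hnN
    have hm0 : 0 < SS n * JJ n := by
      by_contra hneg
      push Not at hneg
      nlinarith
    have e6 := near_of κ κ' θ (θ - s) hκ hκ' hθ2 (by linarith) (by linarith) (by linarith) n
      hm hcon
    exact e5 ⟨hasRep_of_near κ' θ hθ hθ2 h25 n hm0 e6, e6⟩)
  have g6 : E ⊆ (((Icc 1 X).filter (fun n => n ∈ E ∧ N ≤ n) ∪ range N : Finset ℕ) : Set ℕ) := by
    intro n hn
    obtain ⟨e1, e2, -⟩ := hE n hn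
    rw [Finset.mem_coe, mem_union, mem_filter, mem_Icc, mem_range]
    by_cases hnN : N ≤ n
    · left
      exact ⟨⟨e1, e2⟩, hn, hnN⟩
    · right
      omega
  have g7 := Set.ncard_le_ncard g6 (Finset.finite_toSet _)
  rw [Set.ncard_coe_finset] at g7
  have g8 := g7.trans (card_union_le _ _)
  rw [card_range] at g8
  have g9 : (E.ncard : ℝ) ≤
      (((Icc 1 X).filter (fun n => n ∈ E ∧ N ≤ n)).card : ℝ) + N := by exact_mod_cast g8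
  have g10 : (((Icc 1 X).filter (fun n => n ∈ E ∧ N ≤ n)).card : ℝ) ≤ (X : ℝ) ^ (θ - s) := by
    refine le_trans (le_of_eq ?_) g5
    congr!
  have g11 : (X : ℝ) ^ θ = (X : ℝ) ^ s * (X : ℝ) ^ (θ - s) := by
    rw [← Real.rpow_add hXp]
    congr 1
    ring
  have g12 : (1 : ℝ) ≤ (X : ℝ) ^ (θ - s) := Real.one_le_rpow hXR (by linarith)
  obtain ⟨u, hu⟩ : ∃ u : ℝ, u = (X : ℝ) ^ (θ - s) := ⟨_, rfl⟩
  obtain ⟨v, hv⟩ : ∃ v : ℝ, v = (X : ℝ) ^ s := ⟨_, rfl⟩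
  rw [g11, ← hu, ← hv]
  rw [← hu] at g10 g12
  rw [← hv] at g4
  have hN0 : (0 : ℝ) ≤ N := Nat.cast_nonneg N
  nlinarith

end Pool.Agent.Lib.MP_e3f158_nt.BSR
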