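import Pool.Agent.Lib.MP_e3f158_nt.BSR.PortI

/-!
# MP_e3f158_nt, type `(0,0)`: transfer of theorems on the count `g n`

`port_gen`: from exceptions to `¬ Bd θ n` to exceptions to `Nr θ n`, if for every `θ` and
arbitrarily small `s > 0` all large `n` satisfy `¬ Bd (θ - s) n → Nr θ n`.
`portJ`: Theorem J (asymptotic with error `n / (log n)^A`) for the representations of type `(0,0)`.
-/

set_option autoImplicit false

namespace Pool.Agent.Lib.MP_e3f158_nt.BSR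

open Finset Pool.MP_dd84fd_nt.En Pool.MP_dd84fd_nt.E2 Pool.Agent.Lib.MP_e3f158_nt

/-- the general form of a theorem on few exceptions `≤ X ^ θ`, `lo < θ < hi`, outside the multiples
of few moduli -/
def FewExc (lo hi : ℝ) (C : ℕ) (Bd : ℝ → ℕ → Prop) : Prop :=
  ∀ th : ℝ, lo < th → th < hi → ∀ ε : ℝ, 0 < ε → ∀ K : ℕ, ∃ X0 : ℕ, ∀ X : ℕ, X0 ≤ X →
    ∃ D : Finset ℕ, (D.card : ℝ) ≤ (Real.log X) ^ C ∧
      (∀ d ∈ D, (Real.log X) ^ K ≤ (d : ℝ) ∧ (d : ℝ) ≤ (X : ℝ) ^ (1 - th + ε)) ∧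
      ∀ E : Set ℕ, (∀ n ∈ E, 1 ≤ n ∧ n ≤ X ∧ Even n ∧
          (∀ d ∈ D, d ∣ n → (n : ℝ) ^ (1 - th + ε) < d) ∧ Bd th n) →
        (E.ncard : ℝ) ≤ (X : ℝ) ^ th

theorem port_gen (lo hi : ℝ) (hlo : 0 < lo) (C : ℕ) (Bd Nr : ℝ → ℕ → Prop)
    (h : FewExc lo hi C Bd)
    (hl : ∀ θ : ℝ, lo < θ → θ < hi → ∀ s0 : ℝ, 0 < s0 → ∃ s : ℝ, 0 < s ∧ s < s0 ∧ lo < θ - s ∧
      ∃ N : ℕ, ∀ n : ℕ, N ≤ n → Even n → ¬ Bd (θ - s) n → Nr θ n) :
    FewExc lo hi C (fun θ n => ¬ Nr θ n) := by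
  classical
  intro θ hθ hθ2 ε hε K
  obtain ⟨s, hs0, hs1, hs2, N, hN⟩ := hl θ hθ hθ2 ε hε
  obtain ⟨X1, hX1⟩ := h (θ - s) hs2 (by linarith) (ε - s) (by linarith) K
  obtain ⟨X2, hX2⟩ := MP_log_pow (N + 1) 0 (ε := s) hs0
  refine ⟨max (max X1 X2) 1, fun X hX => ?_⟩
  have k1 : X1 ≤ X := (le_max_left _ _).trans ((le_max_left _ _).trans hX)
  have k2 : X2 ≤ X := (le_max_right _ _).trans ((le_max_left _ _).trans hX)
  have k3 : 1 ≤ X := (le_max_right _ _).trans hX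
  obtain ⟨D, g1, g2, g3⟩ := hX1 X k1
  have g4 := hX2 X k2
  rw [pow_zero, mul_one] at g4
  have hexp : 1 - (θ - s) + (ε - s) = 1 - θ + ε := by ring
  rw [hexp] at g2 g3
  have hXR : (1 : ℝ) ≤ X := by exact_mod_cast k3
  have hXp : (0 : ℝ) < X := by linarith
  refine ⟨D, g1, g2, fun E hE => ?_⟩
  have g5 := g3 {n | n ∈ E ∧ N ≤ n} (by
    rintro n ⟨hn, hnN⟩
    obtain ⟨e1, e2, e3, e4, e5⟩ := hE n hn
    refine ⟨e1, e2, e3, e4, ?_⟩
    by_contra hcon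
    exact e5 (hN n hnN e3 hcon))
  have hfin : ({n | n ∈ E ∧ N ≤ n} : Set ℕ).Finite := by
    refine (Set.finite_Icc 0 X).subset ?_
    rintro n ⟨hn, -⟩
    exact ⟨Nat.zero_le n, (hE n hn).2.1⟩
  have g6 : E ⊆ {n | n ∈ E ∧ N ≤ n} ∪ ((range N : Finset ℕ) : Set ℕ) := by
    intro n hn
    by_cases hnN : N ≤ n
    · exact Or.inl ⟨hn, hnN⟩
    · right
      rw [Finset.mem_coe, mem_range]
      omega
  have g7 := Set.ncard_le_ncard g6 (hfin.union (Finset.finite_toSet _))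
  have g8 := g7.trans (Set.ncard_union_le _ _)
  rw [Set.ncard_coe_finset, card_range] at g8
  have g9 : (E.ncard : ℝ) ≤ (({n | n ∈ E ∧ N ≤ n} : Set ℕ).ncard : ℝ) + N := by
    exact_mod_cast g8
  have g11 : (X : ℝ) ^ θ = (X : ℝ) ^ s * (X : ℝ) ^ (θ - s) := by
    rw [← Real.rpow_add hXp]
    congr 1
    ring
  have g12 : (1 : ℝ) ≤ (X : ℝ) ^ (θ - s) := Real.one_le_rpow hXR (by linarith)
  obtain ⟨u, hu⟩ : ∃ u : ℝ, u = (X : ℝ) ^ (θ - s) := ⟨_, rfl⟩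
  obtain ⟨v, hv⟩ : ∃ v : ℝ, v = (X : ℝ) ^ s := ⟨_, rfl⟩
  rw [g11, ← hu, ← hv]
  rw [← hu] at g5 g12
  rw [← hv] at g4
  have hN0 : (0 : ℝ) ≤ N := Nat.cast_nonneg N
  nlinarith

/-- `n` has a representation of type `(0,0)`, and their number differs from `S(n) J(n)` by at most
`n / (log n)^A` -/
def NearA (A : ℕ) (n : ℕ) : Prop :=
  HasRep 0 0 n ∧ |(reps 0 0 n : ℝ) - SS n * JJ n| ≤ (n : ℝ) / (Real.log n) ^ A

theorem nearA_of (A : ℕ) : ∃ N : ℕ, ∀ n : ℕ, N ≤ n →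
    |(g n : ℝ) - SS n * JJ n| ≤ (n : ℝ) / (Real.log n) ^ (max A 3 + 1) → NearA A n := by
  have hC := C2_pos
  obtain ⟨X1, hX1⟩ := MP_log_pow 2 A (ε := 1) (by norm_num)
  obtain ⟨X2, hX2⟩ := MP_log_pow (4 / C2) 2 (ε := 1) (by norm_num)
  obtain ⟨X3, hX3⟩ : ∃ X3 : ℕ, ∀ n : ℕ, X3 ≤ n → max 2 (4 / C2) ≤ Real.log n := by
    have h := (Real.tendsto_log_atTop.comp tendsto_natCast_atTop_atTop).eventually_ge_atTop
      (max 2 (4 / C2))
    obtain ⟨X3, h3⟩ := Filter.eventually_atTop.1 h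
    exact ⟨X3, fun n hn => h3 n hn⟩
  refine ⟨max (max X1 X2) (max X3 9), fun n hn hg => ?_⟩
  have n1 : X1 ≤ n := (le_max_left _ _).trans ((le_max_left _ _).trans hn)
  have n2 : X2 ≤ n := (le_max_right _ _).trans ((le_max_left _ _).trans hn)
  have n3 : X3 ≤ n := (le_max_left _ _).trans ((le_max_right _ _).trans hn)
  have n4 : 9 ≤ n := (le_max_right _ _).trans ((le_max_right _ _).trans hn)
  have n4' : (9 : ℝ) ≤ n := by exact_mod_cast n4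
  have e1 := hX1 n n1
  have e2 := hX2 n n2
  rw [Real.rpow_one] at e1 e2
  have e3 := hX3 n n3
  have e3a : 2 ≤ Real.log n := (le_max_left _ _).trans e3
  have e3b : 4 / C2 ≤ Real.log n := (le_max_right _ _).trans e3
  have hl : 0 < Real.log n := by linarith
  have hl1 : 1 ≤ Real.log n := by linarith
  have hn0 : (0 : ℝ) < n := by linarith
  have k1 : (reps 0 0 n : ℝ) ≤ g n := by exact_mod_cast reps_le n
  have k2 : (g n : ℝ) ≤ reps 0 0 n + 1 := by exact_mod_cast le_reps n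
  obtain ⟨h4, h5⟩ := abs_le.1 hg
  -- the error term
  have f1 : (n : ℝ) / (Real.log n) ^ (max A 3 + 1) ≤ (n : ℝ) / (Real.log n) ^ A / 2 := by
    rw [div_div]
    refine div_le_div_of_nonneg_left hn0.le (by positivity) ?_
    calc (Real.log n) ^ A * 2 ≤ (Real.log n) ^ (max A 3) * Real.log n :=
          mul_le_mul (pow_le_pow_right₀ hl1 (le_max_left _ _)) e3a (by norm_num) (by positivity)
      _ = (Real.log n) ^ (max A 3 + 1) := by rw [pow_succ]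
  have f2 : (1 : ℝ) ≤ (n : ℝ) / (Real.log n) ^ A / 2 := by
    rw [div_div, le_div_iff₀ (by positivity)]
    linarith
  have f3 : |(reps 0 0 n : ℝ) - SS n * JJ n| ≤ (n : ℝ) / (Real.log n) ^ A := by
    rw [abs_le]
    constructor <;> linarith
  refine ⟨hasRep_of_reps ?_, f3⟩
  intro h0
  rw [h0, Nat.cast_zero] at k2
  -- the main term is large
  have g1 : C2 * ((n : ℝ) / (Real.log n) ^ 2) ≤ SS n * JJ n := by
    have s1 := JJ_ge n (by omega)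
    have s2 := SS_ge n
    have s3 : (n : ℝ) / (Real.log n) ^ 2 / 2 ≤ JJ n := by
      refine le_trans ?_ s1
      rw [div_div, div_le_div_iff₀ (by positivity) (by positivity)]
      have : (n : ℝ) ≤ ((n : ℝ) - 3) * 2 := by linarith
      calc (n : ℝ) * (Real.log n) ^ 2 ≤ (((n : ℝ) - 3) * 2) * (Real.log n) ^ 2 :=
            mul_le_mul_of_nonneg_right this (by positivity)
        _ = ((n : ℝ) - 3) * ((Real.log n) ^ 2 * 2) := by ring
    calc C2 * ((n : ℝ) / (Real.log n) ^ 2) =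
          (2 * C2) * ((n : ℝ) / (Real.log n) ^ 2 / 2) := by ring
      _ ≤ SS n * JJ n := mul_le_mul s2 s3 (by positivity) (by linarith)
  have g2 : (n : ℝ) / (Real.log n) ^ (max A 3 + 1) ≤
      C2 / 4 * ((n : ℝ) / (Real.log n) ^ 2) := by
    have t1 : (Real.log n) ^ 3 ≤ (Real.log n) ^ (max A 3 + 1) :=
      pow_le_pow_right₀ hl1 ((le_max_right A 3).trans (Nat.le_succ _))
    have t2 : (n : ℝ) / (Real.log n) ^ (max A 3 + 1) ≤ (n : ℝ) / (Real.log n) ^ 3 :=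
      div_le_div_of_nonneg_left hn0.le (by positivity) t1
    refine t2.trans ?_
    rw [div_le_iff₀ (by positivity)]
    have t3 : 1 ≤ C2 / 4 * Real.log n := by
      rw [div_le_iff₀ hC] at e3b
      linarith
    calc (n : ℝ) ≤ n * (C2 / 4 * Real.log n) := le_mul_of_one_le_right hn0.le t3
      _ = C2 / 4 * ((n : ℝ) / (Real.log n) ^ 2) * (Real.log n) ^ 3 := by
        field_simp
  have g3 : 1 ≤ C2 / 4 * ((n : ℝ) / (Real.log n) ^ 2) := by
    have : 4 / C2 ≤ (n : ℝ) / (Real.log n) ^ 2 := by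
      rw [le_div_iff₀ (by positivity)]
      exact e2
    rw [div_le_iff₀ hC] at this
    linarith
  have g4 : 0 < C2 * ((n : ℝ) / (Real.log n) ^ 2) := by positivity
  linarith

/-- Theorem J for the representations of type `(0,0)` -/
theorem portJ (lo hi : ℝ) (hlo : 0 < lo) (A : ℕ) (C : ℕ)
    (h : FewExc lo hi C (fun _ n => (n : ℝ) / (Real.log n) ^ (max A 3 + 1) <
      |(g n : ℝ) - SS n * JJ n|)) :
    FewExc lo hi C (fun _ n => ¬ NearA A n) := by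
  refine port_gen lo hi hlo C _ _ h fun θ hθ hθ2 s0 hs0 => ?_
  obtain ⟨N, hN⟩ := nearA_of A
  refine ⟨min (s0 / 2) ((θ - lo) / 2), lt_min (by positivity) (by linarith),
    lt_of_le_of_lt (min_le_left _ _) (by linarith), ?_, N, fun n hn _ hb => hN n hn (not_lt.1 hb)⟩
  have := min_le_right (s0 / 2) ((θ - lo) / 2)
  linarith

/-- Theorem K for the representations of type `(0,0)`: `n` has a representation, and there are at
least `(1 - κ (1 - 3 θ)²) S(n) J(n)` of them -/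
def NearK (κ θ : ℝ) (n : ℕ) : Prop :=
  HasRep 0 0 n ∧ (1 - κ * (1 - 3 * θ) ^ 2) * (SS n * JJ n) ≤ (reps 0 0 n : ℝ)

theorem nearK_of (κ κ' θ : ℝ) (hκ : 0 < κ) (hκ' : κ < κ') (h16 : κ' < 16)
    (hθ : 1 / 4 < θ) (hθ2 : θ < 1 / 3) (s0 : ℝ) (hs0 : 0 < s0) :
    ∃ s : ℝ, 0 < s ∧ s < s0 ∧ 1 / 4 < θ - s ∧ ∃ N : ℕ, ∀ n : ℕ, N ≤ n →
      (1 - κ * (1 - 3 * (θ - s)) ^ 2) * (SS n * JJ n) ≤ g n → NearK κ' θ n := by
  have hx : 0 < 1 - 3 * θ := by linarith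
  obtain ⟨x, hxd⟩ : ∃ x : ℝ, x = 1 - 3 * θ := ⟨_, rfl⟩
  have hx4 : x < 1 / 4 := by linarith
  rw [← hxd] at hx
  have hd : 0 < κ' - κ := by linarith
  -- choice of s
  obtain ⟨t, ht⟩ : ∃ t : ℝ, t = (κ' - κ) / (18 * κ) * x := ⟨_, rfl⟩
  have ht0 : 0 < t := by rw [ht]; positivity
  obtain ⟨s, h1, h2, h3, h4, h5⟩ : ∃ s : ℝ, 0 < s ∧ s < s0 ∧ 1 / 4 < θ - s ∧ s ≤ t ∧
      s ≤ x / 3 := by
    refine ⟨min (min (s0 / 2) ((θ - 1 / 4) / 2)) (min t (x / 3)), ?_, ?_, ?_, ?_, ?_⟩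
    · exact lt_min (lt_min (by positivity) (by linarith)) (lt_min ht0 (by positivity))
    · exact lt_of_le_of_lt ((min_le_left _ _).trans (min_le_left _ _)) (by linarith)
    · have := (min_le_left (min (s0 / 2) ((θ - 1 / 4) / 2)) (min t (x / 3))).trans
        (min_le_right _ _)
      linarith
    · exact (min_le_right _ _).trans (min_le_left _ _)
    · exact (min_le_right _ _).trans (min_le_right _ _)
  obtain ⟨N, hN⟩ := main_large ((κ' - κ) / 4 * x ^ 2) (by positivity)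
  refine ⟨s, h1, h2, h3, N, fun n hn hg => ?_⟩
  have k2 : (g n : ℝ) ≤ reps 0 0 n + 1 := by exact_mod_cast le_reps n
  have hm := hN n hn
  obtain ⟨m, hmd⟩ : ∃ m : ℝ, m = SS n * JJ n := ⟨_, rfl⟩
  rw [← hmd] at hm hg
  have hm0 : 0 < m := by
    by_contra hneg
    push Not at hneg
    have : 0 ≤ (κ' - κ) / 4 * x ^ 2 := by positivity
    nlinarith
  have q1 : 1 - 3 * (θ - s) = x + 3 * s := by rw [hxd]; ring
  rw [q1] at hg
  -- κ (x + 3s)² ≤ (κ + (κ' - κ)/2) x²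
  have q2 : κ * (x + 3 * s) ^ 2 ≤ (κ + (κ' - κ) / 2) * x ^ 2 := by
    have e1 : κ * (18 * s) ≤ (κ' - κ) * x := by
      have e2 := mul_le_mul_of_nonneg_left h4 (by positivity : 0 ≤ 18 * κ)
      have e3 : 18 * κ * t = (κ' - κ) * x := by
        rw [ht]
        field_simp
      linarith
    have e4 : κ * (x + 3 * s) ^ 2 = κ * x ^ 2 + κ * (3 * s) * (2 * x + 3 * s) := by ring
    have e5 : κ * (3 * s) * (2 * x + 3 * s) ≤ (κ' - κ) / 6 * x * (3 * x) := by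
      have e6 : κ * (3 * s) ≤ (κ' - κ) / 6 * x := by linarith
      have e7 : 2 * x + 3 * s ≤ 3 * x := by linarith
      exact mul_le_mul e6 e7 (by positivity) (by positivity)
    rw [e4]
    nlinarith
  have q3 : (1 - κ' * x ^ 2) * m ≤ (reps 0 0 n : ℝ) := by
    have q4 := mul_le_mul_of_nonneg_right q2 hm0.le
    nlinarith
  refine ⟨hasRep_of_reps fun h0 => ?_, ?_⟩
  · rw [h0, Nat.cast_zero] at q3
    have q5 : κ' * x ^ 2 < 1 := by
      have : x ^ 2 ≤ (1 / 4) ^ 2 := pow_le_pow_left₀ hx.le hx4.le 2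
      have h0 : 0 < x ^ 2 := by positivity
      nlinarith
    nlinarith
  · rw [← hmd, ← hxd]
    exact q3

theorem portK (κ κ' : ℝ) (hκ : 0 < κ) (hκ' : κ < κ') (h16 : κ' < 16) (C : ℕ)
    (h : FewExc (1 / 4) (1 / 3) C (fun θ n => (g n : ℝ) <
      (1 - κ * (1 - 3 * θ) ^ 2) * (SS n * JJ n))) :
    FewExc (1 / 4) (1 / 3) C (fun θ n => ¬ NearK κ' θ n) := by
  refine port_gen (1 / 4) (1 / 3) (by norm_num) C _ _ h fun θ hθ hθ2 s0 hs0 => ?_
  obtain ⟨s, h1, h2, h3, N, hN⟩ := nearK_of κ κ' θ hκ hκ' h16 hθ hθ2 s0 hs0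
  exact ⟨s, h1, h2, h3, N, fun n hn _ hb => hN n hn (not_lt.1 hb)⟩

end Pool.Agent.Lib.MP_e3f158_nt.BSR
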