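import Pool.Agent.Lib.MP_e3f158_nt.BSR.PortAbs

/-!
# MP_e3f158_nt, type `(0,0)`: from `|g n - S J| ≤ c S J` to `reps 0 0 n`
-/

set_option autoImplicit false

namespace Pool.Agent.Lib.MP_e3f158_nt.BSR

open Finset Pool.MP_dd84fd_nt.En Pool.MP_dd84fd_nt.E2 Pool.Agent.Lib.MP_e3f158_nt

/-- `n` has a representation of type `(0,0)`, and their number differs from `S(n) J(n)` by at most
`c S(n) J(n) + 1` -/
def NearL (c : ℝ) (n : ℕ) : Prop :=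
  HasRep 0 0 n ∧ |(reps 0 0 n : ℝ) - SS n * JJ n| ≤ c * (SS n * JJ n) + 1

theorem nearL_of : ∃ N : ℕ, ∀ n : ℕ, N ≤ n → ∀ c : ℝ, c ≤ 1 / 2 →
    ¬ (c * (SS n * JJ n) < |(g n : ℝ) - SS n * JJ n|) → NearL c n := by
  obtain ⟨N, hN⟩ := main_large (1 / 2) (by norm_num)
  refine ⟨N, fun n hn c hc hb => ?_⟩
  push Not at hb
  obtain ⟨b1, b2⟩ := abs_le.1 hb
  have k1 : (reps 0 0 n : ℝ) ≤ g n := by exact_mod_cast reps_le n
  have k2 : (g n : ℝ) ≤ reps 0 0 n + 1 := by exact_mod_cast le_reps n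
  have hm := hN n hn
  refine ⟨hasRep_of_reps fun h0 => ?_, abs_le.2 ⟨by linarith, by linarith⟩⟩
  rw [h0, Nat.cast_zero] at k2
  have hm0 : 0 < SS n * JJ n := by linarith
  have h3 : c * (SS n * JJ n) ≤ 1 / 2 * (SS n * JJ n) := mul_le_mul_of_nonneg_right hc hm0.le
  linarith

end Pool.Agent.Lib.MP_e3f158_nt.BSR
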