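import Pool.Agent.Lib.MP_e3f158_nt.BSR.PortAbs

/-!
# MP_e3f158_nt, type `(0,0)`: from two-sided bounds for `g n` to `reps 0 0 n`
-/

set_option autoImplicit false

namespace Pool.Agent.Lib.MP_e3f158_nt.BSR

open Finset Pool.MP_dd84fd_nt.En Pool.MP_dd84fd_nt.E2 Pool.Agent.Lib.MP_e3f158_nt

/-- `n` has a representation of type `(0,0)`, and their number is between `a S(n) J(n) - 1` and
`b S(n) J(n)` -/
def NearM (a b : ℝ) (n : ℕ) : Prop :=
  HasRep 0 0 n ∧ a * (SS n * JJ n) - 1 ≤ (reps 0 0 n : ℝ) ∧ (reps 0 0 n : ℝ) ≤ b * (SS n * JJ n)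

theorem nearM_of (a0 : ℝ) (ha0 : 0 < a0) : ∃ N : ℕ, ∀ n : ℕ, N ≤ n → ∀ a b : ℝ, a0 ≤ a →
    ¬ ((g n : ℝ) < a * (SS n * JJ n) ∨ b * (SS n * JJ n) < g n) → NearM a b n := by
  obtain ⟨N, hN⟩ := main_large a0 ha0
  refine ⟨N, fun n hn a b h1 hb => ?_⟩
  push Not at hb
  obtain ⟨b1, b2⟩ := hb
  have k1 : (reps 0 0 n : ℝ) ≤ g n := by exact_mod_cast reps_le n
  have k2 : (g n : ℝ) ≤ reps 0 0 n + 1 := by exact_mod_cast le_reps n
  have hm := hN n hn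
  refine ⟨hasRep_of_reps fun h0 => ?_, by linarith, by linarith⟩
  rw [h0, Nat.cast_zero] at k2
  have hm0 : 0 < SS n * JJ n := by
    by_contra hneg
    push Not at hneg
    nlinarith
  have h3 : a0 * (SS n * JJ n) ≤ a * (SS n * JJ n) := mul_le_mul_of_nonneg_right h1 hm0.le
  linarith

end Pool.Agent.Lib.MP_e3f158_nt.BSR
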