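import Pool.Agent.Lib.MP_e3f158_nt.BSR.PortW

/-!
# MP_e3f158_nt, type `(0,0)`: transfer of all clauses with the set `D X` of moduli fixed

If `¬ Bd n → Nr n` for all `n ≥ N`, then the clauses for `Bd` with `ε / 4`, `K + 1` give the clauses
for `¬ Nr` with `ε`, `K`, for the same sets of moduli.
-/

set_option autoImplicit false

namespace Pool.Agent.Lib.MP_e3f158_nt.BSR

open Finset

open Classical in
/-- all clauses for `Bd` -/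
def BdAll (Bd : ℕ → Prop) (Q : ℕ → ℕ → Prop) (θ ε : ℝ) (M K X : ℕ) (D : Finset ℕ) : Prop :=
  ((((Icc 1 X).filter (fun n : ℕ => ∃ W : ℕ, n + W ≤ X ∧
    (M : ℝ) + W / Real.log X ^ K < (((Icc n (n + W)).filter
      (fun m : ℕ => Even m ∧ Bd m)).card : ℝ))).card : ℝ) ≤ (X : ℝ) ^ (θ + ε) ∧
  (∀ n W : ℕ, 1 ≤ n → n + W ≤ X → (X : ℝ) ^ (θ + ε) ≤ W →
    (((Icc n (n + W)).filter (fun m : ℕ => Even m ∧ Bd m)).card : ℝ) ≤ W / Real.log X ^ K)) ∧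
  (∀ N : Finset ℕ, (∀ n ∈ N, 1 ≤ n ∧ n ≤ X ∧ Even n) →
        (∀ n ∈ N, ∀ m ∈ N, n ≠ m → (Nat.gcd n m : ℝ) < Real.log X ^ K) →
        ((N.filter (fun n => Bd n)).card : ℝ) ≤ (X : ℝ) ^ (θ + ε)) ∧
  (D.card ≤ M ∧
    (∀ d ∈ D, Real.log X ^ K ≤ (d : ℝ) ∧ (d : ℝ) ≤ (X : ℝ) ^ (1 - θ) ∧ Q X d) ∧
    (D.filter (fun d : ℕ => (d : ℝ) < (X : ℝ) ^ (1 / (M : ℝ)))).card ≤ 1 ∧
    (((Icc 1 X).filter (fun n : ℕ => X < 2 * n ∧ Even n ∧ (∀ d ∈ D, ¬ d ∣ n) ∧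
      Bd n)).card : ℝ) ≤ (X : ℝ) ^ (θ + ε) ∧
    (((Icc 1 X).filter (fun n : ℕ => X < 2 * n ∧ Even n ∧
      (∃ p : ℕ, p.Prime ∧ p ∣ n ∧ ((X : ℝ) / Real.log X ^ K < p ∨
        ((X : ℝ) ^ (1 - 1 / (M : ℝ)) < p ∧
          ∀ d ∈ D, (d : ℝ) < (X : ℝ) ^ (1 / (M : ℝ)) → ¬ d ∣ n))) ∧ Bd n)).card : ℝ) ≤
        (X : ℝ) ^ (θ + ε))

/-- `c (log X)^K ≤ X^θ` for all large `X` -/
theorem log_pow_le {θ : ℝ} (hθ : 0 < θ) (c : ℝ) (K : ℕ) : ∃ X0 : ℕ, ∀ X : ℕ, X0 ≤ X →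
    2 ≤ Real.log X ∧ c * Real.log X ^ K ≤ (X : ℝ) ^ θ := by
  have ht3 : Filter.Tendsto (fun X : ℕ => Real.log (X : ℝ)) Filter.atTop Filter.atTop :=
    Real.tendsto_log_atTop.comp tendsto_natCast_atTop_atTop
  have h := (isLittleO_log_rpow_rpow_atTop (s := θ) (K : ℝ) hθ).bound
    (show (0 : ℝ) < 1 / (|c| + 1) by positivity)
  have h2 := (tendsto_natCast_atTop_atTop (R := ℝ)).eventually h
  have hev : ∀ᶠ X : ℕ in Filter.atTop, 2 ≤ Real.log (X : ℝ) ∧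
      c * Real.log X ^ K ≤ (X : ℝ) ^ θ := by
    filter_upwards [h2, Filter.eventually_ge_atTop 1, ht3.eventually_ge_atTop (2 : ℝ)]
      with X h3 hX hL
    have hX1 : (1 : ℝ) ≤ X := by exact_mod_cast hX
    have hc : (0 : ℝ) < |c| + 1 := by positivity
    have hlk : (0 : ℝ) ≤ Real.log X ^ K := by positivity
    rw [Real.rpow_natCast, Real.norm_eq_abs, Real.norm_eq_abs, abs_of_nonneg hlk,
      abs_of_nonneg (Real.rpow_nonneg (by linarith) _), one_div, ← div_eq_inv_mul,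
      le_div_iff₀ hc] at h3
    refine ⟨hL, le_trans ?_ h3⟩
    nlinarith [le_abs_self c]
  obtain ⟨X0, hX0⟩ := Filter.eventually_atTop.1 hev
  exact ⟨X0, hX0⟩

open Classical in
/-- the transfer -/
theorem port_r {θ ε : ℝ} (hθ : 0 < θ) (hε : 0 < ε) (M K N : ℕ) (Bd Nr : ℕ → Prop)
    (Q : ℕ → ℕ → Prop) (D : ℕ → Finset ℕ)
    (h : ∃ X0 : ℕ, ∀ X : ℕ, X0 ≤ X → BdAll Bd Q θ (ε / 4) M (K + 1) X (D X))
    (hN : ∀ n : ℕ, N ≤ n → ¬ Bd n → Nr n) :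
    ∃ X0 : ℕ, ∀ X : ℕ, X0 ≤ X →
      ((Set.ncard {n : ℕ | 1 ≤ n ∧ n ≤ X ∧ ∃ W : ℕ, n + W ≤ X ∧ (M : ℝ) + W / Real.log X ^ K <
          (Set.ncard {m : ℕ | n ≤ m ∧ m ≤ n + W ∧ Even m ∧ ¬ Nr m} : ℝ)} : ℝ) ≤
            (X : ℝ) ^ (θ + ε) ∧
        ∀ n W : ℕ, 1 ≤ n → n + W ≤ X → (X : ℝ) ^ (θ + ε) ≤ W →
          (Set.ncard {m : ℕ | n ≤ m ∧ m ≤ n + W ∧ Even m ∧ ¬ Nr m} : ℝ) ≤ W / Real.log X ^ K) ∧
      ((D X).card ≤ M ∧
        (∀ d ∈ D X, Real.log X ^ K ≤ (d : ℝ) ∧ (d : ℝ) ≤ (X : ℝ) ^ (1 - θ) ∧ Q X d) ∧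
        (∀ d ∈ D X, ∀ d' ∈ D X, (d : ℝ) < (X : ℝ) ^ (1 / (M : ℝ)) →
          (d' : ℝ) < (X : ℝ) ^ (1 / (M : ℝ)) → d = d') ∧
        (Set.ncard {n : ℕ | X < 2 * n ∧ n ≤ X ∧ Even n ∧ (∀ d ∈ D X, ¬ d ∣ n) ∧ ¬ Nr n} : ℝ) ≤
          (X : ℝ) ^ (θ + ε)) ∧
      ((Set.ncard {p : ℕ | p.Prime ∧ p ≤ X ∧ ¬ Nr (2 * p)} : ℝ) ≤ (X : ℝ) ^ (θ + ε) ∧
        (∀ F : Finset ℕ, (∀ n ∈ F, 1 ≤ n ∧ n ≤ X ∧ Even n) →
          (∀ n ∈ F, ∀ m ∈ F, n ≠ m → (Nat.gcd n m : ℝ) < Real.log X ^ K) →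
          (Set.ncard {n : ℕ | n ∈ F ∧ ¬ Nr n} : ℝ) ≤ (X : ℝ) ^ (θ + ε)) ∧
        (Set.ncard {n : ℕ | X < 2 * n ∧ n ≤ X ∧ Even n ∧ (∃ p : ℕ, p.Prime ∧ p ∣ n ∧
          ((X : ℝ) / Real.log X ^ K < p ∨ ((X : ℝ) ^ (1 - 1 / (M : ℝ)) < p ∧
            ∀ d ∈ D X, (d : ℝ) < (X : ℝ) ^ (1 / (M : ℝ)) → ¬ d ∣ n))) ∧ ¬ Nr n} : ℝ) ≤
          (X : ℝ) ^ (θ + ε)) := by
  obtain ⟨X1, hX1⟩ := h
  -- windows
  obtain ⟨X2, hX2⟩ := port_win (θ := θ) (ε := ε / 2) hθ.le (by linarith) N (K + 1) (M : ℝ) Bd Nr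
    ⟨X1, fun X hX => by
      have := (hX1 X hX).1.1
      have he : θ + ε / 2 / 2 = θ + ε / 4 := by ring
      rw [he]
      exact this⟩ hN
  -- families
  obtain ⟨X3, hX3⟩ := port_fam (θ := θ) (ε := ε / 2) hθ.le (by linarith) N Bd Nr
    (fun X F => (∀ n ∈ F, 1 ≤ n ∧ n ≤ X ∧ Even n) ∧
      (∀ n ∈ F, ∀ m ∈ F, n ≠ m → (Nat.gcd n m : ℝ) < Real.log X ^ (K + 1)))
    ⟨X1, fun X hX F hF => by
      have := (hX1 X hX).2.1 F hF.1 hF.2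
      have he : θ + ε / 2 / 2 = θ + ε / 4 := by ring
      rw [he]
      exact this⟩ hN
  obtain ⟨X4, hX4⟩ := log_pow_le (θ := θ + ε) (by linarith) (2 * N) K
  obtain ⟨X5, hX5⟩ := log_pow_le (θ := ε / 2) (by linarith) ((2 : ℝ) ^ (θ + ε / 2)) 0
  refine ⟨max (max X1 X2) (max (max X3 X4) (max (max X5 (2 * N)) 2)), fun X hX => ?_⟩
  simp only [max_le_iff] at hX
  obtain ⟨⟨x1, x2⟩, ⟨x3, x4⟩, ⟨x5, x6⟩, x7⟩ := hX
  have hX1R : (1 : ℝ) ≤ X := by exact_mod_cast (by omega : 1 ≤ X)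
  have hXp : (0 : ℝ) < X := by linarith
  obtain ⟨hL, hlow⟩ := hX4 X x4
  have hL1 : 1 ≤ Real.log X := by linarith
  have hlk : (0 : ℝ) < Real.log X ^ K := by positivity
  have hKK : Real.log X ^ K ≤ Real.log X ^ (K + 1) := pow_le_pow_right₀ hL1 (by omega)
  have hpow : ∀ {a b : ℝ}, a ≤ b → (X : ℝ) ^ a ≤ (X : ℝ) ^ b := fun h =>
    Real.rpow_le_rpow_of_exponent_le hX1R h
  obtain ⟨⟨w1, w2⟩, f1, d1, d2, d3, d4, d5⟩ := hX1 X x1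
  have hex : ∀ n : ℕ, X < 2 * n → ¬ Nr n → Bd n := by
    intro n h1 h2
    by_contra hcon
    exact h2 (hN n (by omega) hcon)
  refine ⟨⟨?_, ?_⟩, ⟨d1, fun d hd => ⟨hKK.trans (d2 d hd).1, (d2 d hd).2⟩, ?_, ?_⟩, ?_, ?_, ?_⟩
  · -- windows
    refine le_trans ?_ ((hX2 X x2).trans (hpow (by linarith)))
    refine Nat.cast_le.2 (Set.ncard_le_ncard ?_ ((Set.finite_Icc 1 X).subset fun n hn =>
      ⟨hn.1, hn.2.1⟩))
    rintro n ⟨a1, a2, W, a3, a4⟩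
    refine ⟨a1, a2, W, a3, lt_of_le_of_lt ?_ a4⟩
    have : (W : ℝ) / Real.log X ^ (K + 1) ≤ W / Real.log X ^ K :=
      div_le_div_of_nonneg_left (Nat.cast_nonneg _) hlk hKK
    linarith
  · -- intervals
    intro n W hn hnW hW
    have h1 := w2 n W hn hnW ((hpow (by linarith)).trans hW)
    have g6 : {m : ℕ | n ≤ m ∧ m ≤ n + W ∧ Even m ∧ ¬ Nr m} ⊆
        (((Icc n (n + W)).filter (fun m : ℕ => Even m ∧ Bd m) ∪ range N : Finset ℕ) : Set ℕ) := by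
      rintro m ⟨b1, b2, b3, b4⟩
      rw [Finset.mem_coe, mem_union, mem_range]
      by_cases hmN : N ≤ m
      · left
        rw [mem_filter, mem_Icc]
        refine ⟨⟨b1, b2⟩, b3, ?_⟩
        by_contra hcon
        exact b4 (hN m hmN hcon)
      · right
        omega
    have g7 := Set.ncard_le_ncard g6 (Finset.finite_toSet _)
    rw [Set.ncard_coe_finset] at g7
    have g8 := g7.trans (card_union_le _ _)
    rw [card_range] at g8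
    have g9 : (Set.ncard {m : ℕ | n ≤ m ∧ m ≤ n + W ∧ Even m ∧ ¬ Nr m} : ℝ) ≤
        (((Icc n (n + W)).filter (fun m : ℕ => Even m ∧ Bd m)).card : ℝ) + N := by
      exact_mod_cast g8
    have h2 : (N : ℝ) ≤ W / Real.log X ^ K / 2 := by
      rw [le_div_iff₀ (by norm_num), le_div_iff₀ hlk]
      linarith [hlow.trans hW]
    have h3 : (W : ℝ) / Real.log X ^ (K + 1) ≤ W / Real.log X ^ K / 2 := by
      rw [pow_succ, ← div_div]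
      exact div_le_div_of_nonneg_left (by positivity) (by norm_num) hL
    linarith
  · -- at most one small modulus
    intro d hd d' hd' e1 e2
    exact Finset.card_le_one.1 d3 d (mem_filter.2 ⟨hd, e1⟩) d' (mem_filter.2 ⟨hd', e2⟩)
  · -- moduli
    refine le_trans ?_ (d4.trans (hpow (by linarith)))
    rw [← Set.ncard_coe_finset]
    refine Nat.cast_le.2 (Set.ncard_le_ncard ?_ (Finset.finite_toSet _))
    rintro n ⟨a1, a2, a3, a4, a5⟩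
    exact Finset.mem_coe.2 (Finset.mem_filter.2 ⟨mem_Icc.2 ⟨by omega, a2⟩, a1, a3, a4,
      hex n a1 a5⟩)
  · -- primes
    obtain ⟨F, hF⟩ : ∃ F : Finset ℕ, F = ((Icc 1 X).filter Nat.Prime).image (fun p => 2 * p) :=
      ⟨_, rfl⟩
    have hlog : Real.log X ≤ Real.log ((2 * X : ℕ) : ℝ) := by
      refine Real.log_le_log hXp ?_
      push_cast
      linarith
    have k1 := hX3 (2 * X) (by omega) F ⟨fun n hn => by
        rw [hF, mem_image] at hn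
        obtain ⟨p, hp, rfl⟩ := hn
        rw [mem_filter, mem_Icc] at hp
        exact ⟨by omega, by omega, even_two_mul p⟩, fun n hn m hm hnm => by
        rw [hF, mem_image] at hn hm
        obtain ⟨p, hp, rfl⟩ := hn
        obtain ⟨q, hq, rfl⟩ := hm
        rw [mem_filter, mem_Icc] at hp hq
        have hc : Nat.Coprime p q := (Nat.coprime_primes hp.2 hq.2).2 fun hpq => hnm (by rw [hpq])
        rw [Nat.gcd_mul_left, hc.gcd_eq_one, mul_one]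
        have h2 : (2 : ℝ) ≤ Real.log ((2 * X : ℕ) : ℝ) := hL.trans hlog
        have h2' : (2 : ℝ) < Real.log ((2 * X : ℕ) : ℝ) := by
          refine lt_of_le_of_lt hL (Real.log_lt_log hXp ?_)
          push_cast
          linarith
        calc ((2 : ℕ) : ℝ) < Real.log ((2 * X : ℕ) : ℝ) := by exact_mod_cast h2'
          _ = Real.log ((2 * X : ℕ) : ℝ) ^ 1 := (pow_one _).symm
          _ ≤ Real.log ((2 * X : ℕ) : ℝ) ^ (K + 1) :=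
            pow_le_pow_right₀ (by linarith) (by omega)⟩
    have k2 : Set.ncard {p : ℕ | p.Prime ∧ p ≤ X ∧ ¬ Nr (2 * p)} ≤
        Set.ncard {n : ℕ | n ∈ F ∧ ¬ Nr n} := by
      refine Set.ncard_le_ncard_of_injOn (fun p => 2 * p) ?_ ?_
        (F.finite_toSet.subset fun n hn => hn.1)
      · rintro p ⟨a1, a2, a3⟩
        refine ⟨?_, a3⟩
        rw [hF, mem_image]
        exact ⟨p, mem_filter.2 ⟨mem_Icc.2 ⟨a1.one_lt.le, a2⟩, a1⟩, rfl⟩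
      · intro p _ q _ hpq
        simp only at hpq
        omega
    have k3 : ((2 * X : ℕ) : ℝ) ^ (θ + ε / 2) ≤ (X : ℝ) ^ (θ + ε) := by
      push_cast
      rw [Real.mul_rpow (by norm_num) hXp.le]
      have h1 : (X : ℝ) ^ (θ + ε) = (X : ℝ) ^ (ε / 2) * (X : ℝ) ^ (θ + ε / 2) := by
        rw [← Real.rpow_add hXp]
        congr 1
        ring
      rw [h1]
      have h2 := (hX5 X x5).2
      rw [pow_zero, mul_one] at h2
      exact mul_le_mul_of_nonneg_right h2 (Real.rpow_nonneg hXp.le _)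
    have k4 : (Set.ncard {p : ℕ | p.Prime ∧ p ≤ X ∧ ¬ Nr (2 * p)} : ℝ) ≤
        (Set.ncard {n : ℕ | n ∈ F ∧ ¬ Nr n} : ℝ) := by exact_mod_cast k2
    exact k4.trans (k1.trans k3)
  · -- families
    intro F hF1 hF2
    exact (hX3 X x3 F ⟨hF1, fun n hn m hm hnm => lt_of_lt_of_le (hF2 n hn m hm hnm) hKK⟩).trans
      (hpow (by linarith))
  · -- a large prime factor
    refine le_trans ?_ (d5.trans (hpow (by linarith)))
    rw [← Set.ncard_coe_finset]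
    refine Nat.cast_le.2 (Set.ncard_le_ncard ?_ (Finset.finite_toSet _))
    rintro n ⟨a1, a2, a3, ⟨p, p1, p2, p3⟩, a5⟩
    refine Finset.mem_coe.2 (Finset.mem_filter.2 ⟨mem_Icc.2 ⟨by omega, a2⟩, a1, a3,
      ⟨p, p1, p2, ?_⟩, hex n a1 a5⟩)
    rcases p3 with p3 | p3
    · left
      refine lt_of_le_of_lt ?_ p3
      exact div_le_div_of_nonneg_left hXp.le hlk hKK
    · exact Or.inr p3

end Pool.Agent.Lib.MP_e3f158_nt.BSR
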