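import Mathlib

/-!
# MP_e3f158_nt, type `(0,0)`: transfer of the clauses on windows, on families and on moduli

If `¬ Bd n → Nr n` for all `n ≥ N`, then bounds `X ^ (θ + ε / 2)` for the number of exceptions to
`¬ Bd` (in windows, in families, outside the multiples of the moduli `d ∈ D`) give bounds
`X ^ (θ + ε)` for the number of exceptions to `Nr`.
-/

set_option autoImplicit false

namespace Pool.Agent.Lib.MP_e3f158_nt.BSR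

open Finset

/-- `X ^ (θ + ε / 2) + N ≤ X ^ (θ + ε)` for all large `X` -/
theorem add_le_rpow {θ ε : ℝ} (hθ : 0 ≤ θ) (hε : 0 < ε) (N : ℕ) : ∃ X0 : ℕ, ∀ X : ℕ, X0 ≤ X →
    N < X ∧ (X : ℝ) ^ (θ + ε / 2) + N ≤ (X : ℝ) ^ (θ + ε) := by
  have ht1 : Filter.Tendsto (fun X : ℕ => (X : ℝ) ^ (ε / 2)) Filter.atTop Filter.atTop :=
    (tendsto_rpow_atTop (by linarith)).comp tendsto_natCast_atTop_atTop
  have hev : ∀ᶠ X : ℕ in Filter.atTop, N + 1 ≤ X ∧ ((N : ℝ) + 1) ≤ (X : ℝ) ^ (ε / 2) := by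
    filter_upwards [Filter.eventually_ge_atTop (N + 1), ht1.eventually_ge_atTop ((N : ℝ) + 1)]
      with X a b using ⟨a, b⟩
  obtain ⟨X0, hX0⟩ := Filter.eventually_atTop.1 hev
  refine ⟨X0, fun X hX => ?_⟩
  obtain ⟨h1, h2⟩ := hX0 X hX
  refine ⟨h1, ?_⟩
  have h3 : (1 : ℝ) ≤ (X : ℝ) := by exact_mod_cast (by omega : 1 ≤ X)
  have h4 : (1 : ℝ) ≤ (X : ℝ) ^ (θ + ε / 2) := Real.one_le_rpow h3 (by linarith)
  have h5 : (X : ℝ) ^ (θ + ε) = (X : ℝ) ^ (θ + ε / 2) * (X : ℝ) ^ (ε / 2) := by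
    rw [← Real.rpow_add (by linarith)]
    congr 1
    ring
  rw [h5]
  obtain ⟨a, ha⟩ : ∃ a : ℝ, a = (X : ℝ) ^ (θ + ε / 2) := ⟨_, rfl⟩
  obtain ⟨b, hb⟩ : ∃ b : ℝ, b = (X : ℝ) ^ (ε / 2) := ⟨_, rfl⟩
  rw [← ha] at h4 ⊢
  rw [← hb] at h2 ⊢
  have hN : (0 : ℝ) ≤ N := Nat.cast_nonneg N
  nlinarith [mul_nonneg (by linarith : (0 : ℝ) ≤ a - 1) hN,
    mul_le_mul_of_nonneg_left h2 (by linarith : (0 : ℝ) ≤ a)]

open Classical in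
/-- windows -/
theorem port_win {θ ε : ℝ} (hθ : 0 ≤ θ) (hε : 0 < ε) (N K : ℕ) (c : ℝ) (Bd Nr : ℕ → Prop)
    (h : ∃ X0 : ℕ, ∀ X : ℕ, X0 ≤ X → (((Icc 1 X).filter (fun n : ℕ => ∃ W : ℕ, n + W ≤ X ∧
      c + W / Real.log X ^ K < (((Icc n (n + W)).filter
        (fun m : ℕ => Even m ∧ Bd m)).card : ℝ))).card : ℝ) ≤ (X : ℝ) ^ (θ + ε / 2))
    (hN : ∀ n : ℕ, N ≤ n → ¬ Bd n → Nr n) :
    ∃ X0 : ℕ, ∀ X : ℕ, X0 ≤ X → (Set.ncard {n : ℕ | 1 ≤ n ∧ n ≤ X ∧ ∃ W : ℕ, n + W ≤ X ∧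
      c + W / Real.log X ^ K <
        (Set.ncard {m : ℕ | n ≤ m ∧ m ≤ n + W ∧ Even m ∧ ¬ Nr m} : ℝ)} : ℝ) ≤
          (X : ℝ) ^ (θ + ε) := by
  obtain ⟨X1, hX1⟩ := h
  obtain ⟨X2, hX2⟩ := add_le_rpow hθ hε N
  refine ⟨max X1 X2, fun X hX => ?_⟩
  have k1 := hX1 X ((le_max_left _ _).trans hX)
  obtain ⟨-, k2⟩ := hX2 X ((le_max_right _ _).trans hX)
  obtain ⟨T, hT⟩ : ∃ T : Finset ℕ, T = (Icc 1 X).filter (fun n : ℕ => ∃ W : ℕ, n + W ≤ X ∧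
      c + W / Real.log X ^ K < (((Icc n (n + W)).filter
        (fun m : ℕ => Even m ∧ Bd m)).card : ℝ)) := ⟨_, rfl⟩
  rw [← hT] at k1
  have g6 : {n : ℕ | 1 ≤ n ∧ n ≤ X ∧ ∃ W : ℕ, n + W ≤ X ∧ c + W / Real.log X ^ K <
        (Set.ncard {m : ℕ | n ≤ m ∧ m ≤ n + W ∧ Even m ∧ ¬ Nr m} : ℝ)} ⊆
      ((T ∪ range N : Finset ℕ) : Set ℕ) := by
    rintro n ⟨a1, a2, W, a3, a4⟩
    rw [Finset.mem_coe, mem_union, mem_range]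
    by_cases hnN : N ≤ n
    · left
      rw [hT, mem_filter, mem_Icc]
      refine ⟨⟨a1, a2⟩, W, a3, lt_of_lt_of_le a4 ?_⟩
      have h1 : {m : ℕ | n ≤ m ∧ m ≤ n + W ∧ Even m ∧ ¬ Nr m} ⊆
          (((Icc n (n + W)).filter (fun m : ℕ => Even m ∧ Bd m) : Finset ℕ) : Set ℕ) := by
        rintro m ⟨b1, b2, b3, b4⟩
        rw [Finset.mem_coe, mem_filter, mem_Icc]
        refine ⟨⟨b1, b2⟩, b3, ?_⟩
        by_contra hcon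
        exact b4 (hN m (hnN.trans b1) hcon)
      have h2 := Set.ncard_le_ncard h1 (Finset.finite_toSet _)
      rw [Set.ncard_coe_finset] at h2
      exact_mod_cast h2
    · right
      omega
  have g7 := Set.ncard_le_ncard g6 (Finset.finite_toSet _)
  rw [Set.ncard_coe_finset] at g7
  have g8 := g7.trans (card_union_le _ _)
  rw [card_range] at g8
  have g9 : (Set.ncard {n : ℕ | 1 ≤ n ∧ n ≤ X ∧ ∃ W : ℕ, n + W ≤ X ∧ c + W / Real.log X ^ K <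
        (Set.ncard {m : ℕ | n ≤ m ∧ m ≤ n + W ∧ Even m ∧ ¬ Nr m} : ℝ)} : ℝ) ≤
      (T.card : ℝ) + N := by
    exact_mod_cast g8
  linarith

open Classical in
/-- families -/
theorem port_fam {θ ε : ℝ} (hθ : 0 ≤ θ) (hε : 0 < ε) (N : ℕ) (Bd Nr : ℕ → Prop)
    (Q : ℕ → Finset ℕ → Prop)
    (h : ∃ X0 : ℕ, ∀ X : ℕ, X0 ≤ X → ∀ F : Finset ℕ, Q X F →
      ((F.filter Bd).card : ℝ) ≤ (X : ℝ) ^ (θ + ε / 2))
    (hN : ∀ n : ℕ, N ≤ n → ¬ Bd n → Nr n) :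
    ∃ X0 : ℕ, ∀ X : ℕ, X0 ≤ X → ∀ F : Finset ℕ, Q X F →
      (Set.ncard {n : ℕ | n ∈ F ∧ ¬ Nr n} : ℝ) ≤ (X : ℝ) ^ (θ + ε) := by
  obtain ⟨X1, hX1⟩ := h
  obtain ⟨X2, hX2⟩ := add_le_rpow hθ hε N
  refine ⟨max X1 X2, fun X hX F hF => ?_⟩
  have k1 := hX1 X ((le_max_left _ _).trans hX) F hF
  obtain ⟨-, k2⟩ := hX2 X ((le_max_right _ _).trans hX)
  have g6 : {n : ℕ | n ∈ F ∧ ¬ Nr n} ⊆ ((F.filter Bd ∪ range N : Finset ℕ) : Set ℕ) := by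
    rintro n ⟨a1, a2⟩
    rw [Finset.mem_coe, mem_union, mem_range]
    by_cases hnN : N ≤ n
    · left
      rw [mem_filter]
      refine ⟨a1, ?_⟩
      by_contra hcon
      exact a2 (hN n hnN hcon)
    · right
      omega
  have g7 := Set.ncard_le_ncard g6 (Finset.finite_toSet _)
  rw [Set.ncard_coe_finset] at g7
  have g8 := g7.trans (card_union_le _ _)
  rw [card_range] at g8
  have g9 : (Set.ncard {n : ℕ | n ∈ F ∧ ¬ Nr n} : ℝ) ≤ ((F.filter Bd).card : ℝ) + N := by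
    exact_mod_cast g8
  linarith

open Classical in
/-- moduli: one scale `X / 2 < n ≤ X` -/
theorem port_mod {θ ε : ℝ} (hε : 0 < ε) (N : ℕ) (Bd Nr : ℕ → Prop) (Q : ℕ → Finset ℕ → Prop)
    (h : ∃ X0 : ℕ, ∀ X : ℕ, X0 ≤ X → ∃ D : Finset ℕ, Q X D ∧
      (((Icc 1 X).filter (fun n : ℕ => X < 2 * n ∧ Even n ∧ (∀ d ∈ D, ¬ d ∣ n) ∧
        Bd n)).card : ℝ) ≤ (X : ℝ) ^ (θ + ε / 2))
    (hN : ∀ n : ℕ, N ≤ n → ¬ Bd n → Nr n) :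
    ∃ X0 : ℕ, ∀ X : ℕ, X0 ≤ X → ∃ D : Finset ℕ, Q X D ∧
      (Set.ncard {n : ℕ | X < 2 * n ∧ n ≤ X ∧ Even n ∧ (∀ d ∈ D, ¬ d ∣ n) ∧ ¬ Nr n} : ℝ) ≤
        (X : ℝ) ^ (θ + ε) := by
  obtain ⟨X1, hX1⟩ := h
  refine ⟨max (max X1 (2 * N)) 1, fun X hX => ?_⟩
  have k1 : X1 ≤ X := (le_max_left _ _).trans ((le_max_left _ _).trans hX)
  have k2 : 2 * N ≤ X := (le_max_right _ _).trans ((le_max_left _ _).trans hX)
  have k3 : 1 ≤ X := (le_max_right _ _).trans hX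
  obtain ⟨D, g1, g2⟩ := hX1 X k1
  refine ⟨D, g1, ?_⟩
  have g3 : (X : ℝ) ^ (θ + ε / 2) ≤ (X : ℝ) ^ (θ + ε) :=
    Real.rpow_le_rpow_of_exponent_le (by exact_mod_cast k3) (by linarith)
  refine le_trans ?_ (g2.trans g3)
  rw [← Set.ncard_coe_finset]
  refine Nat.cast_le.2 (Set.ncard_le_ncard ?_ (Finset.finite_toSet _))
  rintro n ⟨a1, a2, a3, a4, a5⟩
  refine Finset.mem_coe.2 (Finset.mem_filter.2 ⟨mem_Icc.2 ⟨by omega, a2⟩, a1, a3, a4, ?_⟩)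
  by_contra hcon
  exact a5 (hN n (by omega) hcon)

end Pool.Agent.Lib.MP_e3f158_nt.BSR
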