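import Pool.Agent.Lib.MP_e3f158_nt.BSR.PortM
import Pool.Agent.Lib.MP_dd84fd_nt.BY.Defs

/-!
# MP_e3f158_nt, type `(0,0)`: transfer of the form with boundedly many explicit moduli

`port_y`: one scale `X/2 < n ≤ X`.
-/

set_option autoImplicit false

namespace Pool.Agent.Lib.MP_e3f158_nt.BSR

open Finset Pool.MP_dd84fd_nt.En Pool.MP_dd84fd_nt.E2 Pool.Agent.Lib.MP_e3f158_nt

theorem port_y (Ex : ℕ → ℕ → ℕ → Prop) (M N : ℕ) (θ ε : ℝ) (Bd Nr : ℕ → Prop)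
    (h : ∀ K : ℕ, ∃ X0 : ℕ, ∀ X : ℕ, X0 ≤ X → ∃ D : Finset ℕ, D.card ≤ M ∧
      (∀ d ∈ D, (Real.log X) ^ K ≤ (d : ℝ) ∧ (d : ℝ) ≤ (X : ℝ) ^ (1 - θ) ∧ Ex M X d) ∧
      ∀ P : ℕ → Prop, ∀ _ : DecidablePred P,
        (∀ n, P n → X < 2 * n ∧ Even n ∧ (∀ d ∈ D, ¬ d ∣ n) ∧ Bd n) →
        (((Icc 1 X).filter P).card : ℝ) ≤ (X : ℝ) ^ (θ + ε))
    (hN : ∀ n : ℕ, N ≤ n → ¬ Bd n → Nr n) (K : ℕ) :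
    ∃ X0 : ℕ, ∀ X : ℕ, X0 ≤ X → ∃ D : Finset ℕ, D.card ≤ M ∧
      (∀ d ∈ D, (Real.log X) ^ K ≤ (d : ℝ) ∧ (d : ℝ) ≤ (X : ℝ) ^ (1 - θ) ∧ Ex M X d) ∧
      (Set.ncard {n : ℕ | X < 2 * n ∧ n ≤ X ∧ Even n ∧ (∀ d ∈ D, ¬ d ∣ n) ∧ ¬ Nr n} : ℝ) ≤
        (X : ℝ) ^ (θ + ε) := by
  classical
  obtain ⟨X1, hX1⟩ := h K
  refine ⟨max X1 (2 * N), fun X hX => ?_⟩
  have k1 : X1 ≤ X := (le_max_left _ _).trans hX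
  have k2 : 2 * N ≤ X := (le_max_right _ _).trans hX
  obtain ⟨D, g1, g2, g3⟩ := hX1 X k1
  refine ⟨D, g1, g2, ?_⟩
  have g5 := g3 (fun n : ℕ => X < 2 * n ∧ Even n ∧ (∀ d ∈ D, ¬ d ∣ n) ∧ Bd n)
    inferInstance (fun n hn => hn)
  refine le_trans ?_ g5
  rw [← Set.ncard_coe_finset]
  refine Nat.cast_le.2 (Set.ncard_le_ncard ?_ (Finset.finite_toSet _))
  rintro n ⟨a1, a2, a3, a4, a5⟩
  refine Finset.mem_coe.2 (Finset.mem_filter.2 ⟨mem_Icc.2 ⟨by omega, a2⟩, a1, a3, a4, ?_⟩)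
  by_contra hcon
  exact a5 (hN n (by omega) hcon)

end Pool.Agent.Lib.MP_e3f158_nt.BSR
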