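import Pool.Agent.Lib.MP_e3f158_nt.G.LG
import Pool.Agent.Lib.MP_dd84fd_nt.E2.MinorP
import Pool.Agent.Lib.MP_dd84fd_nt.E2.Defs
import Pool.Agent.Lib.MP_dd84fd_nt.En.Sing

/-!
# MP_e3f158_nt: the number of representations of type `(0,0)` and Goldbach representations
-/

set_option autoImplicit false

namespace Pool.Agent.Lib.MP_e3f158_nt.BSR

open Finset Pool.MP_dd84fd_nt.En Pool.MP_dd84fd_nt.E2 Pool.Agent.Lib.MP_e3f158_nt

/-- the number of representations `(x, y)` of type `(a, b)` of `n` -/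
noncomputable def reps (a b n : ℕ) : ℕ :=
  Set.ncard {v : ℕ × ℕ | 1 ≤ v.1 ∧ 1 ≤ v.2 ∧ ipr a v.1 + ipr b v.2 = n ∧ ipr a v.1 ≠ ipr b v.2}

theorem ipr_zero (x : ℕ) : ipr 0 x = Nat.nth Nat.Prime (x - 1) := rfl

theorem ipr_zero_prime (x : ℕ) : (ipr 0 x).Prime := by
  rw [ipr_zero]
  exact Nat.nth_mem_of_infinite Nat.infinite_setOfPred_prime _

theorem ipr_zero_inj {x y : ℕ} (hx : 1 ≤ x) (hy : 1 ≤ y) (h : ipr 0 x = ipr 0 y) : x = y := by
  rw [ipr_zero, ipr_zero] at h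
  have h1 := Nat.nth_injective Nat.infinite_setOfPred_prime h
  omega

theorem reps_eq (n : ℕ) : reps 0 0 n =
    ((range (n + 1)).filter (fun p => (Nat.Prime p ∧ Nat.Prime (n - p)) ∧ 2 * p ≠ n)).card := by
  rw [← Set.ncard_coe_finset, reps]
  have hinj : Set.InjOn (fun v : ℕ × ℕ => ipr 0 v.1)
      {v : ℕ × ℕ | 1 ≤ v.1 ∧ 1 ≤ v.2 ∧ ipr 0 v.1 + ipr 0 v.2 = n ∧ ipr 0 v.1 ≠ ipr 0 v.2} := by
    rintro ⟨x, y⟩ ⟨h1, h2, h3, h4⟩ ⟨x', y'⟩ ⟨h1', h2', h3', h4'⟩ h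
    simp only at h h1 h2 h3 h4 h1' h2' h3' h4'
    have e1 := ipr_zero_inj h1 h1' h
    have e2 : ipr 0 y = ipr 0 y' := by omega
    rw [e1, ipr_zero_inj h2 h2' e2]
  rw [← hinj.ncard_image]
  congr 1
  ext p
  rw [Finset.mem_coe, mem_filter, mem_range]
  constructor
  · rintro ⟨⟨x, y⟩, ⟨h1, h2, h3, h4⟩, rfl⟩
    simp only at h1 h2 h3 h4 ⊢
    have e : n - ipr 0 x = ipr 0 y := by omega
    refine ⟨by omega, ⟨ipr_zero_prime x, ?_⟩, by omega⟩
    rw [e]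
    exact ipr_zero_prime y
  · rintro ⟨h1, ⟨h2, h3⟩, h4⟩
    obtain ⟨x, hx, hxp⟩ := G.LG_prime h2
    obtain ⟨y, hy, hyp⟩ := G.LG_prime h3
    have h5 := h3.pos
    exact ⟨(x, y), ⟨hx, hy, by simp only; omega, by simp only; omega⟩, hxp⟩

theorem reps_le (n : ℕ) : reps 0 0 n ≤ g n := by
  rw [reps_eq, g]
  refine card_le_card fun p hp => ?_
  rw [mem_filter] at hp ⊢
  exact ⟨hp.1, hp.2.1⟩

theorem le_reps (n : ℕ) : g n ≤ reps 0 0 n + 1 := by
  rw [reps_eq, g]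
  have h : (range (n + 1)).filter (fun p => Nat.Prime p ∧ Nat.Prime (n - p)) ⊆
      (range (n + 1)).filter (fun p => (Nat.Prime p ∧ Nat.Prime (n - p)) ∧ 2 * p ≠ n) ∪
        {n / 2} := by
    intro p hp
    rw [mem_filter] at hp
    rw [mem_union, mem_filter, mem_singleton]
    by_cases h2 : 2 * p = n
    · right
      omega
    · left
      exact ⟨hp.1, hp.2, h2⟩
  refine (card_le_card h).trans ((card_union_le _ _).trans ?_)
  rw [card_singleton]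

theorem hasRep_of_reps {a b n : ℕ} (h : reps a b n ≠ 0) : HasRep a b n := by
  obtain ⟨⟨x, y⟩, h1, h2, h3, h4⟩ := Set.nonempty_of_ncard_ne_zero h
  exact ⟨x, y, h1, h2, h3, h4⟩

theorem JJ_ge (n : ℕ) (hn : 4 ≤ n) : ((n : ℝ) - 3) / (Real.log n) ^ 2 ≤ JJ n := by
  unfold JJ
  have h1 : ∀ m ∈ Icc 2 (n - 2), 1 / (Real.log n) ^ 2 ≤
      1 / (Real.log (m : ℝ) * Real.log ((n - m : ℕ) : ℝ)) := by
    intro m hm
    rw [mem_Icc] at hm
    have h2 : (2 : ℝ) ≤ m := by exact_mod_cast hm.1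
    have h3 : (2 : ℝ) ≤ ((n - m : ℕ) : ℝ) := by exact_mod_cast (by omega : 2 ≤ n - m)
    have h4 : (m : ℝ) ≤ n := by exact_mod_cast (by omega : m ≤ n)
    have h5 : ((n - m : ℕ) : ℝ) ≤ n := by exact_mod_cast (by omega : n - m ≤ n)
    have h6 : 0 < Real.log m := Real.log_pos (by linarith)
    have h7 : 0 < Real.log ((n - m : ℕ) : ℝ) := Real.log_pos (by linarith)
    have h8 : Real.log m ≤ Real.log n := Real.log_le_log (by linarith) h4
    have h9 : Real.log ((n - m : ℕ) : ℝ) ≤ Real.log n := Real.log_le_log (by linarith) h5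
    rw [pow_two]
    gcongr
  have h2 := card_nsmul_le_sum (Icc 2 (n - 2)) _ _ h1
  rw [Nat.card_Icc, nsmul_eq_mul] at h2
  refine le_trans (le_of_eq ?_) h2
  have h3 : ((n - 2 + 1 - 2 : ℕ) : ℝ) = (n : ℝ) - 3 := by
    have : n - 2 + 1 - 2 = n - 3 := by omega
    rw [this, Nat.cast_sub (by omega)]
    norm_num
  rw [h3]
  ring

/-- the main term tends to infinity -/
theorem main_large (η : ℝ) (hη : 0 < η) : ∃ N : ℕ, ∀ n : ℕ, N ≤ n →
    2 ≤ η * (SS n * JJ n) := by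
  have hC := C2_pos
  obtain ⟨X1, hX1⟩ := MP_log_pow (1 / (η * C2)) 2 (ε := 1 / 2) (by norm_num)
  refine ⟨max X1 9, fun n hn => ?_⟩
  have hn1 : X1 ≤ n := (le_max_left _ _).trans hn
  have hn9 : 9 ≤ n := (le_max_right _ _).trans hn
  have hn9' : (9 : ℝ) ≤ n := by exact_mod_cast hn9
  have h1 := hX1 n hn1
  have hlog : 0 < Real.log n := Real.log_pos (by linarith)
  have h2 : (n : ℝ) ^ (1 / 2 : ℝ) ≤ (n : ℝ) - 3 := by
    rw [← Real.sqrt_eq_rpow, Real.sqrt_le_iff]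
    constructor
    · linarith
    · nlinarith
  have h3 : 1 / (η * C2) ≤ JJ n := by
    refine le_trans ?_ (JJ_ge n (by omega))
    rw [le_div_iff₀ (by positivity)]
    exact h1.trans h2
  have h4 := SS_ge n
  have h5 : 2 * C2 * (1 / (η * C2)) ≤ SS n * JJ n :=
    mul_le_mul h4 h3 (by positivity) (by linarith)
  have h6 : 2 * C2 * (1 / (η * C2)) = 2 / η := by
    field_simp
  rw [h6, div_le_iff₀ hη] at h5
  linarith

/-- `n` has a representation of type `(0,0)`, and their number is close to the main term -/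
def Good (η : ℝ) (n : ℕ) : Prop :=
  HasRep 0 0 n ∧ |(reps 0 0 n : ℝ) - SS n * JJ n| ≤ η * (SS n * JJ n)

theorem good_of (η : ℝ) (hη : 0 < η) (hη1 : η < 1) (n : ℕ) (h : 2 ≤ η * (SS n * JJ n))
    (hg : |(g n : ℝ) - SS n * JJ n| ≤ η / 2 * (SS n * JJ n)) : Good η n := by
  have h1 : (reps 0 0 n : ℝ) ≤ g n := by exact_mod_cast reps_le n
  have h2 : (g n : ℝ) ≤ reps 0 0 n + 1 := by exact_mod_cast le_reps n
  have h3 : 0 < SS n * JJ n := by
    by_contra hneg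
    push Not at hneg
    nlinarith
  obtain ⟨h4, h5⟩ := abs_le.1 hg
  have h6 : |(reps 0 0 n : ℝ) - SS n * JJ n| ≤ η * (SS n * JJ n) := by
    rw [abs_le]
    constructor <;> linarith
  refine ⟨hasRep_of_reps ?_, h6⟩
  intro h0
  rw [h0, Nat.cast_zero] at h6
  have h7 := (abs_le.1 h6).1
  nlinarith

end Pool.Agent.Lib.MP_e3f158_nt.BSR
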