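import Pool.Agent.Lib.MP_e3f158_nt.BSR.Core

/-!
# MP_e3f158_nt, type `(0,0)`: numbers without intermediate divisors, twice a prime
-/

set_option autoImplicit false

namespace Pool.Agent.Lib.MP_e3f158_nt.BSR

open Finset Pool.MP_dd84fd_nt.En Pool.MP_dd84fd_nt.E2 Pool.Agent.Lib.MP_e3f158_nt

/-- the core statement for subsets of `[1, X]` -/
def CoreAt (C K : ℕ) (δ η : ℝ) (X : ℕ) (D : Finset ℕ) : Prop :=
  (D.card : ℝ) ≤ (Real.log X) ^ C ∧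
  (∀ d ∈ D, (Real.log X) ^ K ≤ (d : ℝ) ∧ (d : ℝ) ≤ (X : ℝ) ^ (1 / 2 + 2 * δ)) ∧
  ∀ E : Set ℕ, (∀ n ∈ E, 1 ≤ n ∧ n ≤ X ∧ Even n ∧
      (∀ d ∈ D, d ∣ n → (n : ℝ) ^ (1 / 2 + 2 * δ) < d) ∧ ¬ Good η n) →
    (E.ncard : ℝ) ≤ 1 / 2 * (X : ℝ) ^ (1 / 2 - δ)

theorem core_set : ∃ (C : ℕ) (c : ℝ), 0 < c ∧ c < 1 / 16 ∧ ∀ η : ℝ, 0 < η → η < 1 →
    ∀ K : ℕ, ∃ X0 : ℕ, ∀ X : ℕ, X0 ≤ X → ∃ D : Finset ℕ, CoreAt C K (c * η) η X D := by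
  classical
  obtain ⟨C, c, hc, hc16, h⟩ := core
  refine ⟨C, c, hc, hc16, fun η hη hη1 K => ?_⟩
  obtain ⟨X0, hX0⟩ := h η hη hη1 K
  refine ⟨X0, fun X hX => ?_⟩
  obtain ⟨D, h1, h2, h3⟩ := hX0 X hX
  refine ⟨D, h1, h2, fun E hE => ?_⟩
  refine le_trans ?_ (h3 (fun n => n ∈ E) fun n _ _ hn => (hE n hn).2.2)
  norm_cast
  rw [← Set.ncard_coe_finset]
  refine Set.ncard_le_ncard ?_ (Finset.finite_toSet _)
  intro n hn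
  rw [Finset.mem_coe, mem_filter, mem_Icc]
  exact ⟨⟨(hE n hn).1, (hE n hn).2.1⟩, hn⟩

theorem two_p_bound (p : ℕ) (hp : 9 ≤ p) (e : ℝ) (he : e ≤ 3 / 4) :
    ((2 * p : ℕ) : ℝ) ^ e < p := by
  have hpR : (9 : ℝ) ≤ p := by exact_mod_cast hp
  have h2 : (1 : ℝ) ≤ ((2 * p : ℕ) : ℝ) := by
    push_cast
    linarith
  refine lt_of_le_of_lt (Real.rpow_le_rpow_of_exponent_le h2 he) ?_
  refine lt_of_pow_lt_pow_left₀ 4 (by linarith) ?_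
  rw [← Real.rpow_natCast, ← Real.rpow_mul (by linarith)]
  rw [show (3 / 4 * ((4 : ℕ) : ℝ) : ℝ) = ((3 : ℕ) : ℝ) by norm_num, Real.rpow_natCast]
  push_cast
  have h3 : (0 : ℝ) < (p : ℝ) ^ 3 := by positivity
  nlinarith

theorem two_p_card (C : ℕ) (δ η : ℝ) (hδ : 0 < δ) (hδ1 : δ < 1 / 16) (X : ℕ)
    (hX : 1 ≤ X) (hlog : 17 ≤ Real.log (2 * X : ℕ)) (D : Finset ℕ)
    (h : CoreAt C 1 δ η (2 * X) D) :
    (Set.ncard {p : ℕ | p.Prime ∧ p ≤ X ∧ ¬ Good η (2 * p)} : ℝ) ≤ (X : ℝ) ^ (1 / 2 - δ) := by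
  obtain ⟨-, h2, h3⟩ := h
  have hXR : (1 : ℝ) ≤ X := by exact_mod_cast hX
  have hinj : Set.InjOn (fun p : ℕ => 2 * p) {p : ℕ | p.Prime ∧ p ≤ X ∧ ¬ Good η (2 * p)} := by
    intro p _ q _ hpq
    simp only at hpq
    omega
  have h4 := h3 ((fun p : ℕ => 2 * p) '' {p : ℕ | p.Prime ∧ p ≤ X ∧ ¬ Good η (2 * p)}) (by
    rintro _ ⟨p, ⟨hp, hpX, hgood⟩, rfl⟩
    have hp2 := hp.two_le
    simp only
    refine ⟨by omega, by omega, even_two_mul p, fun d hd hdvd => ?_, hgood⟩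
    have h5 := (h2 d hd).1
    rw [pow_one] at h5
    have h6 : (17 : ℝ) ≤ d := hlog.trans h5
    have h7 : 17 ≤ d := by exact_mod_cast h6
    have h8 : p ∣ d := by
      by_contra hnd
      have h9 : Nat.Coprime p d := (Nat.Prime.coprime_iff_not_dvd hp).2 hnd
      have h10 : d ∣ 2 := Nat.Coprime.dvd_of_dvd_mul_right h9.symm hdvd
      have := Nat.le_of_dvd (by norm_num) h10
      omega
    have h9 : p ≤ d := Nat.le_of_dvd (by omega) h8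
    have h10 : d ≤ 2 * p := Nat.le_of_dvd (by omega) hdvd
    refine lt_of_lt_of_le (two_p_bound p (by omega) _ (by linarith)) ?_
    exact_mod_cast h9)
  rw [hinj.ncard_image] at h4
  refine h4.trans ?_
  push_cast
  rw [Real.mul_rpow (by norm_num) (by linarith)]
  have h7 : (2 : ℝ) ^ (1 / 2 - δ) ≤ 2 := by
    calc (2 : ℝ) ^ (1 / 2 - δ) ≤ (2 : ℝ) ^ (1 : ℝ) :=
          Real.rpow_le_rpow_of_exponent_le (by norm_num) (by linarith)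
      _ = 2 := Real.rpow_one 2
  obtain ⟨u, hu⟩ : ∃ u : ℝ, u = (X : ℝ) ^ (1 / 2 - δ) := ⟨_, rfl⟩
  obtain ⟨v, hv⟩ : ∃ v : ℝ, v = (2 : ℝ) ^ (1 / 2 - δ) := ⟨_, rfl⟩
  have h8 : (0 : ℝ) ≤ u := by rw [hu]; positivity
  rw [← hu, ← hv]
  rw [← hv] at h7
  nlinarith

theorem div_card (C K : ℕ) (δ η : ℝ) (X : ℕ) (D : Finset ℕ) (h : CoreAt C K δ η X D) :
    (Set.ncard {n : ℕ | 1 ≤ n ∧ n ≤ X ∧ Even n ∧
      (∀ d : ℕ, Real.log n ^ K ≤ (d : ℝ) → (d : ℝ) ≤ (n : ℝ) ^ (1 / 2 + 2 * δ) → ¬ d ∣ n) ∧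
      ¬ Good η n} : ℝ) ≤ (X : ℝ) ^ (1 / 2 - δ) := by
  obtain ⟨-, h2, h3⟩ := h
  have h0 : (0 : ℝ) ≤ (X : ℝ) ^ (1 / 2 - δ) := by positivity
  refine le_trans (h3 _ ?_) (by linarith)
  rintro n ⟨hn1, hn2, a1, a2, a3⟩
  refine ⟨hn1, hn2, a1, fun d hd hdn => not_le.1 (fun hle => a2 d ?_ hle hdn), a3⟩
  refine le_trans ?_ (h2 d hd).1
  have hnR : (1 : ℝ) ≤ n := by exact_mod_cast hn1
  have hnX : (n : ℝ) ≤ X := by exact_mod_cast hn2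
  exact pow_le_pow_left₀ (Real.log_nonneg hnR) (Real.log_le_log (by linarith) hnX) K

theorem mod_card (C K : ℕ) (δ η : ℝ) (X : ℕ) (D : Finset ℕ) (h : CoreAt C K δ η X D) :
    (Set.ncard {n : ℕ | 1 ≤ n ∧ n ≤ X ∧ Even n ∧
      (∀ d ∈ D, (d : ℝ) ≤ (n : ℝ) ^ (1 / 2 + 2 * δ) → ¬ d ∣ n) ∧
      ¬ Good η n} : ℝ) ≤ (X : ℝ) ^ (1 / 2 - δ) := by
  obtain ⟨-, h2, h3⟩ := h
  have h0 : (0 : ℝ) ≤ (X : ℝ) ^ (1 / 2 - δ) := by positivity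
  refine le_trans (h3 _ ?_) (by linarith)
  rintro n ⟨hn1, hn2, a1, a2, a3⟩
  exact ⟨hn1, hn2, a1, fun d hd hdn => not_le.1 (fun hle => a2 d hd hle hdn), a3⟩

theorem final : ∃ (C : ℕ) (c : ℝ), 0 < c ∧ c < 1 / 16 ∧ ∀ η : ℝ, 0 < η → η < 1 →
    ∀ K : ℕ, ∃ X0 : ℕ, ∀ X : ℕ, X0 ≤ X → ∃ D : Finset ℕ, CoreAt C K (c * η) η X D ∧
      (Set.ncard {p : ℕ | p.Prime ∧ p ≤ X ∧ ¬ Good η (2 * p)} : ℝ) ≤
        (X : ℝ) ^ (1 / 2 - c * η) := by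
  obtain ⟨C, c, hc, hc16, h⟩ := core_set
  refine ⟨C, c, hc, hc16, fun η hη hη1 K => ?_⟩
  obtain ⟨X0, hX0⟩ := h η hη hη1 K
  obtain ⟨X1, hX1⟩ := h η hη hη1 1
  obtain ⟨X2, hX2⟩ := MP_log_large 17
  refine ⟨max X0 (max (max X1 X2) 1), fun X hX => ?_⟩
  have k0 : X0 ≤ X := (le_max_left _ _).trans hX
  have hX' : max (max X1 X2) 1 ≤ X := (le_max_right _ _).trans hX
  have k1 : X1 ≤ X := (le_max_left _ _).trans ((le_max_left _ _).trans hX')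
  have k2 : X2 ≤ X := (le_max_right _ _).trans ((le_max_left _ _).trans hX')
  have k3 : 1 ≤ X := (le_max_right _ _).trans hX'
  have hcη : 0 < c * η := by positivity
  have hcη2 : c * η < 1 / 16 := by nlinarith
  obtain ⟨D, hD⟩ := hX0 X k0
  obtain ⟨D', hD'⟩ := hX1 (2 * X) (by omega)
  exact ⟨D, hD, two_p_card C (c * η) η hcη hcη2 X k3 (hX2 (2 * X) (by omega)) D' hD'⟩

end Pool.Agent.Lib.MP_e3f158_nt.BSR
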